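import Mathlib

/-!
Project FR (MP_649f63_nt), module SIZ: a number below `2^y` all of whose prime factors exceed `y` has
`sigma(n) < 2 n`.  Independent of the other modules.
-/

namespace Pool.Agent.Helper20.FR

open ArithmeticFunction

private theorem siz_pow {y p e : ℕ} (hp : p.Prime) (hy : 1 ≤ y) (hyp : y < p) :
    (sigma 1 (p ^ e) : ℝ) ≤ ((y : ℝ) + 1) / y * (p : ℝ) ^ e := by
  have hy0 : (0 : ℝ) < y := by exact_mod_cast hy
  have hyp' : (y : ℝ) + 1 ≤ p := by exact_mod_cast hyp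
  have h1 : (sigma 1 (p ^ e) : ℝ) = ∑ k ∈ Finset.range (e + 1), (p : ℝ) ^ k := by
    rw [sigma_one_apply_prime_pow hp]
    push_cast
    rfl
  have hp1 : (p : ℝ) ≠ 1 := by
    have := hp.one_lt
    exact_mod_cast this.ne'
  have hppos : (0 : ℝ) < (p : ℝ) - 1 := by linarith
  rw [h1, geom_sum_eq hp1, div_le_iff₀ hppos]
  have hpe : (0 : ℝ) < (p : ℝ) ^ e := pow_pos (by linarith) e
  have h2 : (p : ℝ) ≤ ((y : ℝ) + 1) / y * ((p : ℝ) - 1) := by
    rw [div_mul_eq_mul_div, le_div_iff₀ hy0]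
    nlinarith
  calc (p : ℝ) ^ (e + 1) - 1 ≤ (p : ℝ) ^ e * p := by rw [pow_succ]; linarith
    _ ≤ (p : ℝ) ^ e * (((y : ℝ) + 1) / y * ((p : ℝ) - 1)) := mul_le_mul_of_nonneg_left h2 hpe.le
    _ = _ := by ring

/-- PROOF. For a prime power, `sigma(p^e) (p-1) = p^(e+1) - 1 < p * p^e`, so
`sigma(p^e) < (p/(p-1)) p^e <= ((y+1)/y) p^e` because `p >= y+1`.  By multiplicativity
`sigma(n)/n <= ((y+1)/y)^k`, k the number of distinct prime factors.  Each prime factor is at least
`4`, so `4^k <= n < 2^y`, `2 k < y`.  Bernoulli: `(y/(y+1))^k = (1 - 1/(y+1))^k >= 1 - k/(y+1) > 1/2`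
(`one_add_mul_le_pow`).  So `sigma(n)/n < 2`. -/
theorem sigma_lt_two_mul {y n : ℕ} (hy : 4 ≤ y) (hn : 0 < n) (hny : n < 2 ^ y)
    (hbig : ∀ p : ℕ, p.Prime → p ∣ n → y < p) : sigma 1 n < 2 * n := by
  have hy0 : (0 : ℝ) < y := by exact_mod_cast (by omega : 0 < y)
  set k := n.primeFactors.card with hk
  have hsig : (sigma 1 n : ℝ) ≤ (((y : ℝ) + 1) / y) ^ k * n := by
    have h1 : sigma 1 n = ∏ p ∈ n.primeFactors, sigma 1 (p ^ n.factorization p) := by
      rw [isMultiplicative_sigma.multiplicative_factorization _ hn.ne']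
      rfl
    have h2 : (n : ℝ) = ∏ p ∈ n.primeFactors, (p : ℝ) ^ n.factorization p := by
      conv_lhs => rw [← Nat.prod_factorization_pow_eq_self hn.ne']
      rw [Finsupp.prod, Nat.support_factorization]
      push_cast
      rfl
    rw [h1, Nat.cast_prod, h2]
    have h3 : ∏ p ∈ n.primeFactors, (sigma 1 (p ^ n.factorization p) : ℝ) ≤
        ∏ p ∈ n.primeFactors, (((y : ℝ) + 1) / y * (p : ℝ) ^ n.factorization p) := by
      apply Finset.prod_le_prod
      · intro p _
        positivity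
      · intro p hp
        have hp' := Nat.prime_of_mem_primeFactors hp
        exact siz_pow hp' (by omega) (hbig p hp' (Nat.dvd_of_mem_primeFactors hp))
    refine h3.trans (le_of_eq ?_)
    rw [Finset.prod_mul_distrib, Finset.prod_const, ← hk]
  have h4k : 2 * k < y := by
    have h1 : 4 ^ k ≤ ∏ p ∈ n.primeFactors, p := by
      rw [hk]
      apply Finset.pow_card_le_prod
      intro p hp
      have hp' := Nat.prime_of_mem_primeFactors hp
      have := hbig p hp' (Nat.dvd_of_mem_primeFactors hp)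
      omega
    have h2 : ∏ p ∈ n.primeFactors, p ≤ n := Nat.le_of_dvd hn (Nat.prod_primeFactors_dvd n)
    have h3 : 2 ^ (2 * k) < 2 ^ y := by
      rw [pow_mul]
      norm_num
      omega
    exact (Nat.pow_lt_pow_iff_right (by norm_num)).1 h3
  have hbern : 1 - (k : ℝ) / (y + 1) ≤ ((y : ℝ) / (y + 1)) ^ k := by
    have h := one_add_mul_le_pow (a := -(1 / ((y : ℝ) + 1))) (by
      have : 1 / ((y : ℝ) + 1) ≤ 1 := by
        rw [div_le_one (by positivity)]; linarith
      linarith) k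
    have e1 : 1 + -(1 / ((y : ℝ) + 1)) = (y : ℝ) / (y + 1) := by field_simp; ring
    rw [e1] at h
    refine le_trans (le_of_eq ?_) h
    ring
  have hhalf : (1 / 2 : ℝ) < ((y : ℝ) / (y + 1)) ^ k := by
    refine lt_of_lt_of_le ?_ hbern
    have h1 : (k : ℝ) / (y + 1) < 1 / 2 := by
      rw [div_lt_div_iff₀ (by positivity) (by norm_num)]
      have : (2 : ℝ) * k < y := by exact_mod_cast h4k
      linarith
    linarith
  have hinv : (((y : ℝ) + 1) / y) ^ k < 2 := by
    have h1 : (((y : ℝ) + 1) / y) ^ k * ((y : ℝ) / (y + 1)) ^ k = 1 := by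
      rw [← mul_pow]
      have : ((y : ℝ) + 1) / y * ((y : ℝ) / (y + 1)) = 1 := by field_simp
      rw [this, one_pow]
    have h2 : 0 < (((y : ℝ) + 1) / y) ^ k := by positivity
    nlinarith
  have hn0 : (0 : ℝ) < n := by exact_mod_cast hn
  have hfin : (sigma 1 n : ℝ) < 2 * n := by
    refine lt_of_le_of_lt hsig ?_
    exact mul_lt_mul_of_pos_right hinv hn0
  exact_mod_cast hfin

end Pool.Agent.Helper20.FR
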