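import Pool.Agent.Helper20.FR.Sig2
import Pool.Agent.Helper20.FR.Siz

/-!
Project FR (MP_649f63_nt), module ANC1: tools for the key structural lemma.
-/

namespace Pool.Agent.Helper20.FR

open ArithmeticFunction

private theorem anc1_prime {a b : ℕ} {R : Finset ℕ} (hR : R ⊆ supp a b) {p : ℕ} (hp : p ∈ R) :
    p.Prime := Nat.prime_of_mem_primeFactors (hR hp)

private theorem anc1_coprime {a b : ℕ} {R : Finset ℕ} (hR : R ⊆ supp a b) (v : ℕ → ℕ) :
    (R : Set ℕ).Pairwise (Function.onFun Nat.Coprime fun p => p ^ v p) := by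
  intro p hp q hq hpq
  exact Nat.coprime_pow_primes _ _ (anc1_prime hR hp) (anc1_prime hR hq) hpq

private theorem anc1_sigma_ge {n : ℕ} (hn : 1 < n) : n + 1 ≤ sigma 1 n := by
  rw [sigma_one_apply, Nat.sum_divisors_eq_sum_properDivisors_add_self]
  have h1 : 1 ∈ n.properDivisors := Nat.mem_properDivisors.2 ⟨one_dvd _, hn⟩
  have h2 : 1 ≤ ∑ i ∈ n.properDivisors, i :=
    Finset.single_le_sum (f := fun i => i) (fun _ _ => Nat.zero_le _) h1
  omega

private theorem anc1_aux {a b y : ℕ} (h : Red a b) (hy : 10 ≤ y) (ha : a < 2 ^ y)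
    {R : Finset ℕ} (hR : R ⊆ supp a b) (hbig : ∀ p ∈ R, y < p)
    (hanc : AncClosed a b R)
    (hno : ∀ d ∈ R, ¬ (0 < a.factorization d ∧ 0 < b.factorization d))
    {p0 : ℕ} (hp0 : p0 ∈ R) (hp0a : 0 < a.factorization p0) : False := by
  have ha0 : a ≠ 0 := h.1.ne'
  set aR := ∏ p ∈ R, p ^ a.factorization p with haR
  have hprime : ∀ p ∈ R, p.Prime := fun p hp => anc1_prime hR hp
  have haR0 : aR ≠ 0 := Finset.prod_ne_zero_iff.2 fun p hp => pow_ne_zero _ (hprime p hp).ne_zero
  have hsig : sigma 1 aR = ∏ p ∈ R, sigma 1 (p ^ a.factorization p) := by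
    rw [haR]
    exact isMultiplicative_sigma.map_prod _ _ (anc1_coprime hR _)
  have hfac : ∀ q ∈ R, (sigma 1 aR).factorization q = (sigma 1 a).factorization q := by
    intro q hq
    rw [anc_fact h hR hanc hq, hsig, Nat.factorization_prod (fun p hp =>
      sigma_ne_zero (pow_ne_zero _ (hprime p hp).ne_zero)), Finsupp.finsetSum_apply]
  have hdvd : aR ∣ sigma 1 aR := by
    conv_lhs => rw [haR]
    apply Finset.prod_dvd_of_isRelPrime
    · intro p hp q hq hpq
      have := anc1_coprime hR a.factorization hp hq hpq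
      exact (Nat.coprime_iff_isRelPrime.1 this)
    · intro q hq
      rw [(hprime q hq).pow_dvd_iff_le_factorization (sigma_ne_zero haR0), hfac q hq]
      have h1 := red_fact h q
      have h2 := hno q hq
      omega
  have hdvda : aR ∣ a := by
    rw [haR]
    apply Finset.prod_dvd_of_isRelPrime
    · intro p hp q hq hpq
      have := anc1_coprime hR a.factorization hp hq hpq
      exact (Nat.coprime_iff_isRelPrime.1 this)
    · intro q _
      exact Nat.ordProj_dvd a q
  have haRlt : aR < 2 ^ y := lt_of_le_of_lt (Nat.le_of_dvd h.1 hdvda) ha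
  have haRbig : ∀ p : ℕ, p.Prime → p ∣ aR → y < p := by
    intro p hp hpd
    rw [haR, Prime.dvd_finsetProd_iff hp.prime] at hpd
    obtain ⟨q, hq, hpq⟩ := hpd
    have h1 := hp.dvd_of_dvd_pow hpq
    have h2 := (Nat.prime_dvd_prime_iff_eq hp (hprime q hq)).1 h1
    rw [h2]
    exact hbig q hq
  have hlt := sigma_lt_two_mul (by omega : 4 ≤ y) (Nat.pos_of_ne_zero haR0) haRlt haRbig
  have h1 : 1 < aR := by
    have h2 : p0 ^ a.factorization p0 ∣ aR := Finset.dvd_prod_of_mem _ hp0
    have h3 : 1 < p0 ^ a.factorization p0 := Nat.one_lt_pow hp0a.ne' (hprime p0 hp0).one_lt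
    exact lt_of_lt_of_le h3 (Nat.le_of_dvd (Nat.pos_of_ne_zero haR0) h2)
  have hge := anc1_sigma_ge h1
  obtain ⟨k, hk⟩ := hdvd
  rw [hk] at hlt hge
  have hk2 : k < 2 := by
    by_contra hc
    push Not at hc
    have := Nat.mul_le_mul_left aR hc
    omega
  have hk1 : 1 < k := by
    by_contra hc
    push Not at hc
    have := Nat.mul_le_mul_left aR hc
    omega
  omega

/-- PROOF. Suppose not: every `p` in R divides exactly one of a, b (R is in the support).  Let
`aR = prod over p in R of p^(v_p(a))`, and `bR` similarly; as R is nonempty one of them, say `aR`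
(the other case by symmetry: `Red.symm`, `AncClosed.symm`), is bigger than 1.  For `q` in R with
`v_q(a) > 0` we have `v_q(b) = 0`, so by `red_fact` `v_q(sigma a) >= v_q(a)`, and by `anc_fact`
`v_q(sigma a) = sum over p in R of v_q(sigma(p^(v_p a))) = v_q(sigma(aR))` (`fact_sigma` for `aR`; its
prime factors are the p in R with `v_p(a) > 0`, with the same exponents).  Hence `aR | sigma(aR)`.
But `aR | a`, so `aR <= a < 2^y` and all its prime factors exceed y, so by `sigma_lt_two_mul`
`sigma(aR) < 2 aR`; and `sigma(aR) > aR` as `aR > 1` (`aR + 1 <= sigma aR`).  A multiple of aR strictly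
between aR and 2 aR: contradiction. -/
theorem exists_double {a b y : ℕ} (h : Red a b) (hy : 10 ≤ y) (ha : a < 2 ^ y) (hb : b < 2 ^ y)
    {R : Finset ℕ} (hR : R ⊆ supp a b) (hne : R.Nonempty) (hbig : ∀ p ∈ R, y < p)
    (hanc : AncClosed a b R) : ∃ d ∈ R, 0 < a.factorization d ∧ 0 < b.factorization d := by
  by_contra hno
  push Not at hno
  obtain ⟨p0, hp0⟩ := hne
  have hsupp := (mem_supp h).1 (hR hp0)
  have hab : 0 < a.factorization p0 ∨ 0 < b.factorization p0 := by
    rcases hsupp.2 with hd | hd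
    · exact Or.inl (hsupp.1.factorization_pos_of_dvd h.1.ne' hd)
    · exact Or.inr (hsupp.1.factorization_pos_of_dvd h.2.1.ne' hd)
  rcases hab with h1 | h1
  · exact anc1_aux h hy ha hR hbig hanc (fun d hd hh => by
      have := hno d hd hh.1
      omega) hp0 h1
  · have hR' : R ⊆ supp b a := by rw [supp_comm]; exact hR
    exact anc1_aux h.symm hy hb hR' hbig hanc.symm (fun d hd hh => by
      have := hno d hd hh.2
      omega) hp0 h1

/-- A prime `q` of R whose exponent in `b` is bigger is hit from the `b` side by another prime of R: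
by `red_fact` `v_q(sigma b) >= v_q(b) - v_q(a) > 0`, and by `anc_fact` (symmetric version) some term
`v_q(sigma(p^(v_p b)))`, `p` in R, is positive; `p` is not `q` by `not_dvd_sigma_pow_self`, and
`v_p(b) > 0` because `sigma 1 1 = 1`. -/
theorem exists_hitter {a b : ℕ} (h : Red a b) {R : Finset ℕ} (hR : R ⊆ supp a b)
    (hanc : AncClosed a b R) {q : ℕ} (hq : q ∈ R) (hlt : a.factorization q < b.factorization q) :
    ∃ p ∈ R, p ≠ q ∧ 0 < b.factorization p ∧ q ∣ sigma 1 (p ^ b.factorization p) := by
  have hR' : R ⊆ supp b a := by rw [supp_comm]; exact hR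
  have h1 := red_fact h q
  have h2 := anc_fact h.symm hR' hanc.symm hq
  have hpos : 0 < (sigma 1 b).factorization q := by omega
  rw [h2] at hpos
  obtain ⟨p, hp, hpp⟩ := Finset.exists_ne_zero_of_sum_ne_zero hpos.ne'
  have hqp := anc1_prime hR hq
  have hpr := anc1_prime hR hp
  have hdvd : q ∣ sigma 1 (p ^ b.factorization p) :=
    Nat.dvd_of_factorization_pos hpp
  refine ⟨p, hp, ?_, ?_, hdvd⟩
  · rintro rfl
    exact not_dvd_sigma_pow_self hpr _ hdvd
  · by_contra hc
    have h0 : b.factorization p = 0 := by omega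
    rw [h0, pow_zero, sigma_one] at hdvd
    exact hqp.one_lt.ne' (Nat.dvd_one.1 hdvd)

/-- If R has only two elements d, p then the exponent of `d` in `sigma b` is the exponent of `d` in
`sigma(p^(v_p b))`, and it is at least `v_d(b) - v_d(a)`. -/
theorem pair_mult {a b : ℕ} (h : Red a b) {R : Finset ℕ} (hR : R ⊆ supp a b)
    (hanc : AncClosed a b R) {d p : ℕ} (hdp : d ≠ p) (hRe : R = {d, p}) (hd : d ∈ R) :
    d ^ (b.factorization d - a.factorization d) ∣ sigma 1 (p ^ b.factorization p) := by
  have hR' : R ⊆ supp b a := by rw [supp_comm]; exact hR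
  have hp : p ∈ R := by rw [hRe]; simp
  have hdpr := anc1_prime hR hd
  have hpr := anc1_prime hR hp
  have h1 := red_fact h d
  have h2 := anc_fact h.symm hR' hanc.symm hd
  rw [hRe, Finset.sum_pair hdp] at h2
  have h3 : (sigma 1 (d ^ b.factorization d)).factorization d = 0 :=
    Nat.factorization_eq_zero_of_not_dvd (not_dvd_sigma_pow_self hdpr _)
  rw [hdpr.pow_dvd_iff_le_factorization (sigma_ne_zero (pow_ne_zero _ hpr.ne_zero))]
  omega

end Pool.Agent.Helper20.FR
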