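import Mathlib

/-!
Project FR (MP_649f63_nt), module LEM2: one short cycle.  Pure divisibility, independent of the other modules.
-/

namespace Pool.Agent.Helper20.FR

/-- `d | p^2+p+1` and `p^2 | d^2+d+1`.  PROOF. `d^2+d+1 >= p^2` gives `d >= p`; `d = p` is impossible
(p would divide 1), so `d >= p+1`.  Put `p^2+p+1 = n d`; then `n (p+1) <= p^2+p+1 < (p+1)^2`, so
`n <= p`, and `n = p` is impossible (p | 1), so `1 <= n <= p-1`.  Modulo `p^2`:
`n^2 (d^2+d+1) = (n d)^2 + n (n d) + n^2` and `n d = p^2+p+1 = p+1`, so `p^2` divides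
`E = (p+1)^2 + n (p+1) + n^2 - p^2 = n^2 + n (p+1) + 2 p + 1`.  Since `n <= p-1`,
`0 < E <= 2 p^2 + 1 < 3 p^2`, so `E = p^2` or `E = 2 p^2`.
If `E = p^2`: n divides `p^2 - 2p - 1` (take it in ℤ) and `p^2+p+1`, so `n | 3p+2`, and
`9 (p^2+p+1) = (3p+2)(3p+1) + 7` gives `n | 7`.  n = 1: `3p+3 = p^2`, so `p | 3`, no.
n = 7: `9p + 57 = p^2`, so `p | 57`, p = 19 (p > 10), but `9*19+57 = 228` is not 361.
If `E = 2p^2`: n divides `2p^2-2p-1` and `2p^2+2p+2`, so `n | 4p+3`, and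
`16 (p^2+p+1) = (4p+3)(4p+1) + 13` gives `n | 13`.  n = 1: `3p+3 = 2p^2`, `p | 3`, no.
n = 13: `15 p + 183 = 2 p^2`, so `p | 183 = 3*61`, p = 61, but `15*61+183 = 1098` is not 7442.
(In Lean: nlinarith bounds, `Nat.Prime.eq_one_or_self_of_dvd`, interval_cases or nlinarith for the
last equations: `p^2 = 9p+57` has no solution because p <= 13 or p >= 14.) -/
theorem cyc_two_two {d p : ℕ} (hd : d.Prime) (hp : p.Prime) (hd10 : 10 < d) (hp10 : 10 < p)
    (h1 : d ∣ p ^ 2 + p + 1) (h2 : p ^ 2 ∣ d ^ 2 + d + 1) : False := by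
  have hp' : (10 : ℤ) < p := by exact_mod_cast hp10
  have hd' : (10 : ℤ) < d := by exact_mod_cast hd10
  obtain ⟨n, e1⟩ := h1
  have e1' : (p : ℤ) ^ 2 + p + 1 = d * n := by exact_mod_cast e1
  have h2' : (p : ℤ) ^ 2 ∣ (d : ℤ) ^ 2 + d + 1 := by exact_mod_cast h2
  have hle : p ^ 2 ≤ d ^ 2 + d + 1 := Nat.le_of_dvd (Nat.succ_pos _) h2
  have hpd : p ≤ d := by
    by_contra hlt
    push Not at hlt
    nlinarith
  have hne : d ≠ p := by
    rintro rfl
    have h3 : d ∣ 1 := by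
      have h4 : d ∣ d ^ 2 + d + 1 := ⟨n, e1⟩
      have h5 : d ∣ d ^ 2 + d := ⟨d + 1, by ring⟩
      exact (Nat.dvd_add_right h5).1 h4
    have := Nat.le_of_dvd one_pos h3
    omega
  have hpd' : (p : ℤ) + 1 ≤ d := by
    have : p + 1 ≤ d := by omega
    exact_mod_cast this
  have hn0 : 1 ≤ n := by
    rcases Nat.eq_zero_or_pos n with h0 | h0
    · subst h0; omega
    · exact h0
  have hn0' : (1 : ℤ) ≤ n := by exact_mod_cast hn0
  have hnp : (n : ℤ) ≤ p := by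
    by_contra hlt
    push Not at hlt
    nlinarith
  have hnp1 : (n : ℤ) ≠ p := by
    intro h
    have h3 : p ∣ 1 := by
      have hn : n = p := by exact_mod_cast h
      have h4 : p ∣ p ^ 2 + p + 1 := ⟨d, by rw [e1, hn, mul_comm]⟩
      have h5 : p ∣ p ^ 2 + p := ⟨p + 1, by ring⟩
      exact (Nat.dvd_add_right h5).1 h4
    have := Nat.le_of_dvd one_pos h3
    omega
  have hnp2 : (n : ℤ) ≤ p - 1 := by
    have := lt_of_le_of_ne hnp hnp1
    omega
  -- `p^2` divides `E`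
  have hE : (p : ℤ) ^ 2 ∣ n ^ 2 + n * (p + 1) + 2 * p + 1 := by
    obtain ⟨c, hc⟩ := h2'
    refine ⟨n ^ 2 * c - (p ^ 2 + 2 * (p + 1)) - n - 1, ?_⟩
    have h3 : (n : ℤ) ^ 2 * (d ^ 2 + d + 1) = (d * n) ^ 2 + n * (d * n) + n ^ 2 := by ring
    rw [← e1', hc] at h3
    linear_combination -h3
  obtain ⟨c, hc⟩ := hE
  have hc0 : 0 < c := by
    by_contra hlt
    push Not at hlt
    nlinarith
  have hc3 : c < 3 := by
    by_contra hlt
    push Not at hlt
    nlinarith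
  have hndvd : (n : ℤ) ∣ (p : ℤ) ^ 2 + p + 1 := ⟨d, by rw [e1', mul_comm]⟩
  have hc12 : c = 1 ∨ c = 2 := by omega
  rcases hc12 with rfl | rfl
  · have h3 : (n : ℤ) ∣ 7 := by
      have h4 : (n : ℤ) ∣ (p : ℤ) ^ 2 - 2 * p - 1 := ⟨n + (p + 1), by linear_combination -hc⟩
      have h5 : (n : ℤ) ∣ 3 * p + 2 := by
        have := dvd_sub hndvd h4
        have e : (p : ℤ) ^ 2 + p + 1 - ((p : ℤ) ^ 2 - 2 * p - 1) = 3 * p + 2 := by ring
        rwa [e] at this
      have h6 := dvd_sub (hndvd.mul_left 9) (h5.mul_right (3 * p + 1))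
      have e : 9 * ((p : ℤ) ^ 2 + p + 1) - (3 * p + 2) * (3 * p + 1) = 7 := by ring
      rwa [e] at h6
    have h4 : n ∣ 7 := by exact_mod_cast h3
    rcases (Nat.dvd_prime (by norm_num : Nat.Prime 7)).1 h4 with rfl | rfl
    · push_cast at hc
      nlinarith
    · push_cast at hc
      rcases le_or_gt (p : ℤ) 13 with h5 | h5
      · nlinarith
      · nlinarith
  · have h3 : (n : ℤ) ∣ 13 := by
      have h4 : (n : ℤ) ∣ 2 * (p : ℤ) ^ 2 - 2 * p - 1 := ⟨n + (p + 1), by linear_combination -hc⟩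
      have h5 : (n : ℤ) ∣ 4 * p + 3 := by
        have := dvd_sub (hndvd.mul_left 2) h4
        have e : 2 * ((p : ℤ) ^ 2 + p + 1) - (2 * (p : ℤ) ^ 2 - 2 * p - 1) = 4 * p + 3 := by ring
        rwa [e] at this
      have h6 := dvd_sub (hndvd.mul_left 16) (h5.mul_right (4 * p + 1))
      have e : 16 * ((p : ℤ) ^ 2 + p + 1) - (4 * p + 3) * (4 * p + 1) = 13 := by ring
      rwa [e] at h6
    have h4 : n ∣ 13 := by exact_mod_cast h3
    rcases (Nat.dvd_prime (by norm_num : Nat.Prime 13)).1 h4 with rfl | rfl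
    · push_cast at hc
      nlinarith
    · push_cast at hc
      rcases le_or_gt (p : ℤ) 14 with h5 | h5
      · nlinarith
      · nlinarith

end Pool.Agent.Helper20.FR
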