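import Pool.Agent.Helper20.FR.Lem
import Pool.Agent.Helper20.FR.Lem2
import Pool.Agent.Helper20.FR.Anc1

/-!
Project FR (MP_649f63_nt), module ANC: the key structural lemma.  In a reduced pair, a nonempty set
of large primes closed under predecessors has total exponent at least 6.
-/

namespace Pool.Agent.Helper20.FR

open ArithmeticFunction

private theorem anc_core {a b : ℕ} (h : Red a b) {R : Finset ℕ} (hR : R ⊆ supp a b)
    (hbig : ∀ p ∈ R, 10 < p) (hanc : AncClosed a b R) {d : ℕ} (hd : d ∈ R)
    (hd0 : 0 < a.factorization d) (hlt : a.factorization d < b.factorization d)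
    (hsum : ∑ p ∈ R, (a.factorization p + b.factorization p) ≤ 5) : False := by
  classical
  have hpr : ∀ p ∈ R, p.Prime := fun p hp => ((mem_supp h).1 (hR hp)).1
  have hpos : ∀ p ∈ R, 1 ≤ a.factorization p + b.factorization p := by
    intro p hp
    have h1 := (mem_supp h).1 (hR hp)
    rcases h1.2 with h2 | h2
    · have := h1.1.factorization_pos_of_dvd h.1.ne' h2
      omega
    · have := h1.1.factorization_pos_of_dvd h.2.1.ne' h2
      omega
  have hne : ∀ p ∈ R, a.factorization p ≠ b.factorization p := by
    intro p hp
    have h1 := (mem_supp h).1 (hR hp)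
    apply h.2.2.2 p h1.1
    rcases h1.2 with h2 | h2
    · exact h2.mul_right b
    · exact h2.mul_left a
  have hsub : ∀ S : Finset ℕ, S ⊆ R →
      ∑ p ∈ S, (a.factorization p + b.factorization p) ≤ 5 :=
    fun S hS => (Finset.sum_le_sum_of_subset hS).trans hsum
  obtain ⟨p, hp, hpd, hBp, hdp⟩ := exists_hitter h hR hanc hd hlt
  have h2 := hsub {d, p} (by
    intro x hx
    simp only [Finset.mem_insert, Finset.mem_singleton] at hx
    rcases hx with rfl | rfl <;> assumption)
  rw [Finset.sum_pair (Ne.symm hpd)] at h2
  have hpne := hne p hp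
  have hAp : a.factorization p = 0 := by omega
  have hltp : a.factorization p < b.factorization p := by omega
  obtain ⟨r, hr, hrp, hBr, hpr'⟩ := exists_hitter h hR hanc hp hltp
  have hd10 := hbig d hd
  have hp10 := hbig p hp
  have hdP := hpr d hd
  have hpP := hpr p hp
  by_cases hrd : r = d
  · subst hrd
    have hcase : (a.factorization r = 1 ∧ b.factorization r = 2) ∨
        (a.factorization r = 1 ∧ b.factorization r = 3) := by omega
    rcases hcase with ⟨hA, hB⟩ | ⟨hA, hB⟩
    · rw [hB, sigma_pow_two hdP] at hpr'
      have hcase2 : b.factorization p = 1 ∨ b.factorization p = 2 := by omega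
      rcases hcase2 with hB2 | hB2
      · rw [hB2, sigma_pow_one hpP] at hdp
        exact cyc_two_one hdP hpP hd10 hp10 hdp hpr'
      · rw [hB2, sigma_pow_two hpP] at hdp
        have hRe : R = {p, r} := by
          apply Finset.Subset.antisymm
          · intro x hx
            by_contra hx'
            simp only [Finset.mem_insert, Finset.mem_singleton, not_or] at hx'
            have h3 := hsub {r, p, x} (by
              intro z hz
              simp only [Finset.mem_insert, Finset.mem_singleton] at hz
              rcases hz with rfl | rfl | rfl <;> assumption)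
            rw [Finset.sum_insert (by
              simp only [Finset.mem_insert, Finset.mem_singleton, not_or]
              exact ⟨Ne.symm hpd, Ne.symm hx'.2⟩), Finset.sum_pair (Ne.symm hx'.1)] at h3
            have h4 := hpos x hx
            omega
          · intro z hz
            simp only [Finset.mem_insert, Finset.mem_singleton] at hz
            rcases hz with rfl | rfl <;> assumption
        have h3 := pair_mult h hR hanc (d := p) (p := r) hpd hRe hp
        rw [hAp, hB2, hB, sigma_pow_two hdP] at h3
        exact cyc_two_two hdP hpP hd10 hp10 hdp (by simpa using h3)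
    · have hB2 : b.factorization p = 1 := by omega
      rw [hB, sigma_pow_three hdP] at hpr'
      have hRe : R = {r, p} := by
        apply Finset.Subset.antisymm
        · intro x hx
          by_contra hx'
          simp only [Finset.mem_insert, Finset.mem_singleton, not_or] at hx'
          have h3 := hsub {r, p, x} (by
            intro z hz
            simp only [Finset.mem_insert, Finset.mem_singleton] at hz
            rcases hz with rfl | rfl | rfl <;> assumption)
          rw [Finset.sum_insert (by
            simp only [Finset.mem_insert, Finset.mem_singleton, not_or]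
            exact ⟨Ne.symm hpd, Ne.symm hx'.1⟩), Finset.sum_pair (Ne.symm hx'.2)] at h3
          have h4 := hpos x hx
          omega
        · intro z hz
          simp only [Finset.mem_insert, Finset.mem_singleton] at hz
          rcases hz with rfl | rfl <;> assumption
      have h3 := pair_mult h hR hanc (d := r) (p := p) (Ne.symm hpd) hRe hd
      rw [hA, hB, hB2, sigma_pow_one hpP] at h3
      exact cyc_three_one hdP hpP hd10 hp10 (by simpa using h3) hpr'
  · have h3 := hsub {d, p, r} (by
      intro z hz
      simp only [Finset.mem_insert, Finset.mem_singleton] at hz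
      rcases hz with rfl | rfl | rfl <;> assumption)
    rw [Finset.sum_insert (by
      simp only [Finset.mem_insert, Finset.mem_singleton, not_or]
      exact ⟨Ne.symm hpd, Ne.symm hrd⟩), Finset.sum_pair (Ne.symm hrp)] at h3
    have hA : a.factorization d = 1 := by omega
    have hB : b.factorization d = 2 := by omega
    have hBp1 : b.factorization p = 1 := by omega
    have hBr1 : b.factorization r = 1 := by omega
    have hAr0 : a.factorization r = 0 := by omega
    have hrP := hpr r hr
    have hr10 := hbig r hr
    rw [hBr1, sigma_pow_one hrP] at hpr'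
    rw [hBp1, sigma_pow_one hpP] at hdp
    obtain ⟨s, hs, hsr, hBs, hrs⟩ := exists_hitter h hR hanc hr (by omega)
    by_cases hsp : s = p
    · subst hsp
      rw [hBp1, sigma_pow_one hpP] at hrs
      exact cyc_one_one hpP hrP hp10 hr10 hrs hpr'
    · by_cases hsd : s = d
      · subst hsd
        rw [hB, sigma_pow_two hdP] at hrs
        exact cyc_two_one_one hdP hpP hrP hd10 hp10 hr10 hdp hpr' hrs
      · have h4 := hsub {s, d, p, r} (by
          intro z hz
          simp only [Finset.mem_insert, Finset.mem_singleton] at hz
          rcases hz with rfl | rfl | rfl | rfl <;> assumption)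
        rw [Finset.sum_insert (by
          simp only [Finset.mem_insert, Finset.mem_singleton, not_or]
          exact ⟨hsd, hsp, hsr⟩), Finset.sum_insert (by
          simp only [Finset.mem_insert, Finset.mem_singleton, not_or]
          exact ⟨Ne.symm hpd, Ne.symm hrd⟩), Finset.sum_pair (Ne.symm hrp)] at h4
        have h5 := hpos s hs
        omega

/-- PROOF. Write `t p = v_p(a) + v_p(b)` (at least 1 on R) and suppose the sum over R is at most 5.
By `exists_double` there is `d` in R with both exponents positive; they are different (`Red`), and by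
symmetry (swap a, b) assume `v_d(a) < v_d(b)`, so `t d >= 3`.  By `exists_hitter` there is `p` in R,
`p != d`, `v_p(b) > 0`, `d | sigma(p^(v_p b))`.  As `t p <= 2` and `v_p(a) != v_p(b)`: `v_p(a) = 0` and
`v_p(b) = 1` or `2`; and `t d` is 3 or 4, i.e. `(v_d a, v_d b) = (1,2)` or `(1,3)`, the latter only
with `t p = 1` and R = {d,p}.  Again by `exists_hitter` for p: there is `r` in R, `r != p`, `v_r(b) > 0`,
`p | sigma(r^(v_r b))`.
Case r = d.
 * `(1,2)`, `v_p(b) = 1`: `d | p+1`, `p | d^2+d+1`: `cyc_two_one`.
 * `(1,2)`, `v_p(b) = 2`: the sum is 5, so R = {d,p}; `pair_mult` (roles exchanged) gives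
   `p^2 | sigma(d^2) = d^2+d+1`, and `d | p^2+p+1`: `cyc_two_two`.
 * `(1,3)`, `v_p(b) = 1`: R = {d,p}; `pair_mult` gives `d^2 | sigma(p^1) = p+1`, and
   `p | sigma(d^3)`: `cyc_three_one`.
Case r != d: then `t d = 3`, `t p = 1`, `t r = 1`, R = {d,p,r}, `v_r(a) = 0`, `v_r(b) = 1`, so
`p | r+1`, `d | p+1`.  By `exists_hitter` for r there is `s` in R, `s != r`, hitting r on the b side:
 * s = p: `r | p+1` together with `p | r+1`: `cyc_one_one`.
 * s = d: `r | d^2+d+1`: `cyc_two_one_one`. -/
theorem anc_six {a b y : ℕ} (h : Red a b) (hy : 10 ≤ y) (ha : a < 2 ^ y) (hb : b < 2 ^ y)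
    {R : Finset ℕ} (hR : R ⊆ supp a b) (hne : R.Nonempty) (hbig : ∀ p ∈ R, y < p)
    (hanc : AncClosed a b R) : 6 ≤ ∑ p ∈ R, (a.factorization p + b.factorization p) := by
  by_contra hcon
  have hsum : ∑ p ∈ R, (a.factorization p + b.factorization p) ≤ 5 := by omega
  have hbig' : ∀ p ∈ R, 10 < p := fun p hp => by have := hbig p hp; omega
  obtain ⟨d, hd, hd1, hd2⟩ := exists_double h hy ha hb hR hne hbig hanc
  have hdne : a.factorization d ≠ b.factorization d := by
    have h1 := (mem_supp h).1 (hR hd)
    apply h.2.2.2 d h1.1
    rcases h1.2 with h2 | h2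
    · exact h2.mul_right b
    · exact h2.mul_left a
  rcases lt_or_gt_of_ne hdne with hlt | hlt
  · exact anc_core h hR hbig' hanc hd hd1 hlt hsum
  · have hsum' : ∑ p ∈ R, (b.factorization p + a.factorization p) ≤ 5 := by
      simpa only [add_comm] using hsum
    have hR' : R ⊆ supp b a := by rw [supp_comm]; exact hR
    exact anc_core h.symm hR' hbig' hanc.symm hd hd2 hlt hsum'

end Pool.Agent.Helper20.FR
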