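import Mathlib

/-!
Project FR (MP_649f63_nt), module COP: integers up to x/b coprime to m.  Independent of the other modules.
-/

namespace Pool.Agent.Helper20.FR

open ArithmeticFunction

theorem cop_moebius {g : ℕ} (hg : g ≠ 0) :
    ∑ e ∈ g.divisors, (moebius e : ℤ) = if g = 1 then 1 else 0 := by
  have h1 : (ArithmeticFunction.moebius * (ArithmeticFunction.zeta : ArithmeticFunction ℤ)) g
      = (1 : ArithmeticFunction ℤ) g := by
    rw [moebius_mul_coe_zeta]
  rw [coe_mul_zeta_apply, one_apply] at h1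
  exact h1

/-- the count as a sum over the divisors -/
theorem cop_count (N m : ℕ) (hm : 0 < m) :
    (((Finset.Icc 1 N).filter (fun d => Nat.Coprime d m)).card : ℤ)
      = ∑ e ∈ m.divisors, moebius e * ((N / e : ℕ) : ℤ) := by
  have h1 : (((Finset.Icc 1 N).filter (fun d => Nat.Coprime d m)).card : ℤ)
      = ∑ d ∈ Finset.Icc 1 N, ∑ e ∈ m.divisors, if e ∣ d then moebius e else 0 := by
    rw [Finset.card_filter]
    push_cast
    refine Finset.sum_congr rfl fun d hd => ?_
    have hd1 : d ≠ 0 := by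
      have := (Finset.mem_Icc.1 hd).1
      omega
    have hg : Nat.gcd d m ≠ 0 := by
      intro h
      exact hd1 (Nat.eq_zero_of_gcd_eq_zero_left h)
    have h2 := cop_moebius hg
    rw [← Finset.sum_filter]
    have h3 : m.divisors.filter (fun e => e ∣ d) = (Nat.gcd d m).divisors := by
      ext e
      rw [Finset.mem_filter, Nat.mem_divisors, Nat.mem_divisors, Nat.dvd_gcd_iff]
      constructor
      · rintro ⟨⟨h4, _⟩, h5⟩
        exact ⟨⟨h5, h4⟩, hg⟩
      · rintro ⟨⟨h4, h5⟩, _⟩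
        exact ⟨⟨h5, hm.ne'⟩, h4⟩
    rw [h3, h2]
  rw [h1, Finset.sum_comm]
  refine Finset.sum_congr rfl fun e _ => ?_
  rw [← Finset.sum_filter, Finset.sum_const, nsmul_eq_mul, mul_comm]
  congr 2
  have h2 : Finset.Icc 1 N = Finset.Ioc 0 N := by
    ext x
    simp only [Finset.mem_Icc, Finset.mem_Ioc]
    omega
  rw [h2, Nat.Ioc_filter_dvd_card_eq_div]

theorem cop_totient (m : ℕ) (hm : 0 < m) :
    ((Nat.totient m : ℝ) / m) = ∑ e ∈ m.divisors, (moebius e : ℝ) / e := by
  have h1 : ∀ n : ℕ, n > 0 → ∑ i ∈ n.divisors, (fun i : ℕ => ((Nat.totient i : ℕ) : ℤ)) i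
      = (fun n : ℕ => (n : ℤ)) n := by
    intro n _
    have h0 := Nat.sum_totient n
    have h00 := congrArg (fun z : ℕ => (z : ℤ)) h0
    push_cast at h00
    exact h00
  have h2 := (sum_eq_iff_sum_mul_moebius_eq (f := fun i : ℕ => ((Nat.totient i : ℕ) : ℤ))
    (g := fun n : ℕ => (n : ℤ))).1 h1 m hm
  have h3 : ((Nat.totient m : ℕ) : ℝ)
      = ∑ x ∈ m.divisorsAntidiagonal, (moebius x.1 : ℝ) * (x.2 : ℝ) := by
    have h4 := congrArg (fun z : ℤ => (z : ℝ)) h2
    simp only [Int.cast_sum, Int.cast_mul, Int.cast_natCast, Int.cast_id] at h4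
    exact h4.symm
  have hm0 : (m : ℝ) ≠ 0 := by exact_mod_cast hm.ne'
  rw [h3, Nat.sum_divisorsAntidiagonal (f := fun a b => (moebius a : ℝ) * (b : ℝ)),
    Finset.sum_div]
  refine Finset.sum_congr rfl fun e he => ?_
  have hed := Nat.dvd_of_mem_divisors he
  have he0 : (e : ℝ) ≠ 0 := by
    have := Nat.pos_of_mem_divisors he
    exact_mod_cast this.ne'
  rw [Nat.cast_div hed he0]
  field_simp

/-- PROOF. With N = x / b (floor), the number is `sum over e | m of mu(e) * (N / e)` (Moebius: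
`ArithmeticFunction.moebius`, the indicator of `gcd(d,m) = 1` is the sum of mu over the divisors of the
gcd; or use inclusion-exclusion over the prime factors, or induction on the number of prime factors), and
`sum_(e|m) mu(e)/e = phi(m)/m` (`Nat.totient_eq_mul_prod_factors` or
`ArithmeticFunction.sum_eq_iff_sum_mul_moebius_eq`).  `N / e = x/(b e) + error`, error between -1 and 0
(`Nat.div_div_eq_div_mul`), so the total error is at most the number of divisors of m. -/
theorem coprime_count (x b m : ℕ) (hb : 0 < b) (hm : 0 < m) :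
    |(((Finset.Icc 1 (x / b)).filter (fun d => Nat.Coprime d m)).card : ℝ)
      - (x : ℝ) / b * ((Nat.totient m : ℝ) / m)| ≤ (m.divisors.card : ℝ) := by
  have h1 : (((Finset.Icc 1 (x / b)).filter (fun d => Nat.Coprime d m)).card : ℝ)
      = ∑ e ∈ m.divisors, (moebius e : ℝ) * (((x / b) / e : ℕ) : ℝ) := by
    have h2 := congrArg (fun z : ℤ => (z : ℝ)) (cop_count (x / b) m hm)
    simp only [Int.cast_sum, Int.cast_mul, Int.cast_natCast] at h2
    exact h2
  rw [h1, cop_totient m hm, Finset.mul_sum, ← Finset.sum_sub_distrib]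
  refine (Finset.abs_sum_le_sum_abs _ _).trans ?_
  refine (Finset.sum_le_card_nsmul _ _ 1 fun e he => ?_).trans (by simp)
  have he0 : 0 < e := Nat.pos_of_mem_divisors he
  have hb0 : (0 : ℝ) < b := by exact_mod_cast hb
  have he0' : (0 : ℝ) < e := by exact_mod_cast he0
  have h3 : (moebius e : ℝ) * (((x / b) / e : ℕ) : ℝ) - (x : ℝ) / b * ((moebius e : ℝ) / e)
      = (moebius e : ℝ) * ((((x / (b * e) : ℕ)) : ℝ) - (x : ℝ) / ((b * e : ℕ) : ℝ)) := by
    rw [Nat.div_div_eq_div_mul]
    push_cast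
    field_simp
  rw [h3, abs_mul]
  have h4 : |(moebius e : ℝ)| ≤ 1 := by
    have := abs_moebius_le_one (n := e)
    exact_mod_cast this
  have h5 : |(((x / (b * e) : ℕ)) : ℝ) - (x : ℝ) / ((b * e : ℕ) : ℝ)| ≤ 1 := by
    have h6 : (((x / (b * e) : ℕ)) : ℝ) ≤ (x : ℝ) / ((b * e : ℕ) : ℝ) := Nat.cast_div_le
    have h7 : (x : ℝ) / ((b * e : ℕ) : ℝ) < (((x / (b * e) : ℕ)) : ℝ) + 1 := by
      have h8 : (0 : ℝ) < ((b * e : ℕ) : ℝ) := by exact_mod_cast Nat.mul_pos hb he0
      rw [div_lt_iff₀ h8]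
      have h9 : x < (x / (b * e) + 1) * (b * e) := by
        have h10 := Nat.div_add_mod x (b * e)
        have h11 := Nat.mod_lt x (Nat.mul_pos hb he0)
        rw [mul_comm] at h10
        rw [add_mul, one_mul]
        omega
      exact_mod_cast h9
    rw [abs_le]
    constructor <;> linarith
  calc |(moebius e : ℝ)| * |(((x / (b * e) : ℕ)) : ℝ) - (x : ℝ) / ((b * e : ℕ) : ℝ)|
      ≤ 1 * 1 := mul_le_mul h4 h5 (abs_nonneg _) zero_le_one
    _ = 1 := one_mul 1

end Pool.Agent.Helper20.FR
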