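import Pool.Agent.Helper20.FR.Psu
import Pool.Agent.Helper20.FR.Cop
import Pool.Agent.Helper20.DivisorBound

/-!
Project FR (MP_649f63_nt), module ASY: Erdos's asymptotic formula with a power saving.
-/

namespace Pool.Agent.Helper20.FR

theorem asy_mem {x : ℕ} {p : ℕ × ℕ} (hp : p ∈ redLt x) :
    (p.1 < x + 1 ∧ p.2 < x + 1) ∧ Red p.1 p.2 ∧ p.1 < p.2 := by
  classical
  unfold redLt at hp
  rw [Finset.mem_filter, Finset.mem_product, Finset.mem_range, Finset.mem_range] at hp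
  exact hp

theorem asy_card_le (x : ℕ) : ((redLt x).card : ℝ) ≤ ((redUpTo x).ncard : ℝ) := by
  norm_cast
  rw [← Set.ncard_coe_finset]
  apply Set.ncard_le_ncard _ (redUpTo_finite _)
  intro p hp
  rw [Finset.mem_coe] at hp
  replace hp := asy_mem hp
  exact ⟨hp.2.1, by omega, by omega⟩

theorem asy_term (x : ℕ) (p : ℕ × ℕ) (hp : p ∈ redLt x) :
    |((((Finset.Icc 1 (x / p.2)).filter (fun d => Nat.Coprime d (p.1 * p.2))).card : ℕ) : ℝ)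
      - (x : ℝ) * wt p| ≤ ((p.1 * p.2).divisors.card : ℝ) := by
  obtain ⟨_, hr, hlt⟩ := asy_mem hp
  have h1 := coprime_count x p.2 (p.1 * p.2) hr.2.1 (Nat.mul_pos hr.1 hr.2.1)
  have h2 : (x : ℝ) * wt p = (x : ℝ) / p.2 * ((Nat.totient (p.1 * p.2) : ℝ) / ((p.1 * p.2 : ℕ) : ℝ)) := by
    unfold wt
    rw [if_pos ⟨hr, hlt⟩]
    ring
  rw [h2]
  exact h1

/-- PROOF. By `sol_count` and `coprime_count` (with `m = a0 b0 <= x^2`), the number of solutions differs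
from `x * sum over redLt x of wt` by at most `sum over redLt x of d(a0 b0) <= card(redLt x) C x^(2 eps')
<= C' x^(1/3+eps)` (`red_count`, redLt x inside redUpTo x), and `x * (tsum - sum) <= C x^(1/3+eps)` by
`wt_tail`.  It is enough to treat `eps <= 1/3` (for larger eps use the result for 1/3). -/
theorem sol_asymp (ε : ℝ) (hε : 0 < ε) :
    ∃ C : ℝ, 0 < C ∧ ∀ x : ℕ, 1 ≤ x →
      |((solUpTo x).ncard : ℝ) - (∑' p : ℕ × ℕ, wt p) * x| ≤ C * (x : ℝ) ^ ((1 : ℝ) / 3 + ε) := by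
  obtain ⟨δ, hδ0, hδ1, hδε⟩ : ∃ δ : ℝ, 0 < δ ∧ δ ≤ 1 / 3 ∧ δ ≤ ε :=
    ⟨min (1 / 3) ε, lt_min (by norm_num) hε, min_le_left _ _, min_le_right _ _⟩
  obtain ⟨C1, hC1, hd⟩ := Pool.Agent.Helper20.divisor_bound (δ / 4) (by positivity)
  obtain ⟨C2, hC2, hr⟩ := red_count (δ / 2) (by positivity)
  obtain ⟨C3, hC3, ht⟩ := wt_tail δ hδ0 hδ1
  refine ⟨C1 * C2 + C3, by positivity, fun x hx => ?_⟩
  have hx1 : (1 : ℝ) ≤ x := by exact_mod_cast hx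
  have hx0 : (0 : ℝ) < x := by linarith
  have hsol : ((solUpTo x).ncard : ℝ) = ∑ p ∈ redLt x,
      ((((Finset.Icc 1 (x / p.2)).filter (fun d => Nat.Coprime d (p.1 * p.2))).card : ℕ) : ℝ) := by
    rw [sol_count]
    push_cast
    rfl
  have hdiv : ∀ p ∈ redLt x, ((p.1 * p.2).divisors.card : ℝ) ≤ C1 * (x : ℝ) ^ (δ / 2) := by
    intro p hp
    obtain ⟨⟨h1, h2⟩, hred, hlt⟩ := asy_mem hp
    have hm : p.1 * p.2 ≠ 0 := (Nat.mul_pos hred.1 hred.2.1).ne'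
    refine (hd _ hm).trans ?_
    have h3 : ((p.1 * p.2 : ℕ) : ℝ) ≤ (x : ℝ) ^ (2 : ℕ) := by
      have : p.1 * p.2 ≤ x ^ 2 := by
        rw [sq]
        exact Nat.mul_le_mul (by omega) (by omega)
      exact_mod_cast this
    have h4 : ((p.1 * p.2 : ℕ) : ℝ) ^ (δ / 4) ≤ (x : ℝ) ^ (δ / 2) := by
      calc ((p.1 * p.2 : ℕ) : ℝ) ^ (δ / 4) ≤ ((x : ℝ) ^ (2 : ℕ)) ^ (δ / 4) :=
            Real.rpow_le_rpow (by positivity) h3 (by positivity)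
        _ = (x : ℝ) ^ (δ / 2) := by
            rw [← Real.rpow_natCast, ← Real.rpow_mul hx0.le]
            congr 1
            push_cast
            ring
    exact mul_le_mul_of_nonneg_left h4 (by linarith)
  have hA : |∑ p ∈ redLt x,
      (((((Finset.Icc 1 (x / p.2)).filter (fun d => Nat.Coprime d (p.1 * p.2))).card : ℕ) : ℝ)
        - (x : ℝ) * wt p)| ≤ C1 * C2 * (x : ℝ) ^ ((1 : ℝ) / 3 + δ) := by
    refine (Finset.abs_sum_le_sum_abs _ _).trans ?_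
    refine (Finset.sum_le_sum (fun p hp => (asy_term x p hp).trans (hdiv p hp))).trans ?_
    rw [Finset.sum_const, nsmul_eq_mul]
    have h5 : ((redLt x).card : ℝ) ≤ C2 * (x : ℝ) ^ ((1 : ℝ) / 3 + δ / 2) :=
      (asy_card_le x).trans (hr x hx)
    calc ((redLt x).card : ℝ) * (C1 * (x : ℝ) ^ (δ / 2))
        ≤ C2 * (x : ℝ) ^ ((1 : ℝ) / 3 + δ / 2) * (C1 * (x : ℝ) ^ (δ / 2)) :=
          mul_le_mul_of_nonneg_right h5 (by positivity)
      _ = C1 * C2 * ((x : ℝ) ^ ((1 : ℝ) / 3 + δ / 2) * (x : ℝ) ^ (δ / 2)) := by ring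
      _ = C1 * C2 * (x : ℝ) ^ ((1 : ℝ) / 3 + δ) := by
          rw [← Real.rpow_add hx0]
          congr 2
          ring
  have hB1 : 0 ≤ (∑' p : ℕ × ℕ, wt p) - (∑ p ∈ redLt x, wt p) := by
    have := sum_le_tsum_wt x
    linarith
  have hB2 : ((∑' p : ℕ × ℕ, wt p) - (∑ p ∈ redLt x, wt p)) * x
      ≤ C3 * (x : ℝ) ^ ((1 : ℝ) / 3 + δ) := by
    calc ((∑' p : ℕ × ℕ, wt p) - (∑ p ∈ redLt x, wt p)) * x
        ≤ C3 * (x : ℝ) ^ (-(2 : ℝ) / 3 + δ) * x := mul_le_mul_of_nonneg_right (ht x hx) hx0.le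
      _ = C3 * ((x : ℝ) ^ (-(2 : ℝ) / 3 + δ) * (x : ℝ) ^ (1 : ℝ)) := by
          rw [Real.rpow_one]; ring
      _ = C3 * (x : ℝ) ^ ((1 : ℝ) / 3 + δ) := by
          rw [← Real.rpow_add hx0]
          congr 2
          ring
  have hsplit : ((solUpTo x).ncard : ℝ) - (∑' p : ℕ × ℕ, wt p) * x
      = (∑ p ∈ redLt x,
      (((((Finset.Icc 1 (x / p.2)).filter (fun d => Nat.Coprime d (p.1 * p.2))).card : ℕ) : ℝ)
        - (x : ℝ) * wt p)) - ((∑' p : ℕ × ℕ, wt p) - (∑ p ∈ redLt x, wt p)) * x := by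
    rw [hsol, Finset.sum_sub_distrib, ← Finset.mul_sum]
    ring
  have hpow : (x : ℝ) ^ ((1 : ℝ) / 3 + δ) ≤ (x : ℝ) ^ ((1 : ℝ) / 3 + ε) :=
    Real.rpow_le_rpow_of_exponent_le hx1 (by linarith)
  rw [hsplit]
  refine (abs_sub _ _).trans ?_
  have hB3 : |((∑' p : ℕ × ℕ, wt p) - (∑ p ∈ redLt x, wt p)) * x|
      = ((∑' p : ℕ × ℕ, wt p) - (∑ p ∈ redLt x, wt p)) * x :=
    abs_of_nonneg (mul_nonneg hB1 hx0.le)
  rw [hB3]
  calc _ ≤ C1 * C2 * (x : ℝ) ^ ((1 : ℝ) / 3 + δ) + C3 * (x : ℝ) ^ ((1 : ℝ) / 3 + δ) :=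
        add_le_add hA hB2
    _ = (C1 * C2 + C3) * (x : ℝ) ^ ((1 : ℝ) / 3 + δ) := by ring
    _ ≤ (C1 * C2 + C3) * (x : ℝ) ^ ((1 : ℝ) / 3 + ε) :=
        mul_le_mul_of_nonneg_left hpow (by positivity)

end Pool.Agent.Helper20.FR
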