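import Mathlib

/-!
Project FR (MP_649f63_nt), module GUE: generic choice of guessed elements.  Independent of the other modules.
-/

namespace Pool.Agent.Helper20.FR

/-- The induction of `exists_guess`. -/
theorem gue_aux {ι : Type*} [DecidableEq ι] (S K0 : Finset ι) (rel : ι → ι → Prop)
    (c w : ι → ℕ) (hw : ∀ p ∈ S, 1 ≤ w p)
    (h : ∀ R : Finset ι, R ⊆ S \ K0 → R.Nonempty → (∀ r ∈ R, ∀ q ∈ S, rel q r → q ∈ R) →
      ∃ q ∈ R, c q ≤ ∏ p ∈ R, w p) (n : ℕ) :
    ∀ K : Finset ι, (S \ K).card = n → K ⊆ S → (∀ p ∈ S, p ∈ K0 → p ∈ K) →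
      (∀ q ∈ K, ∀ r ∈ S, rel q r → r ∈ K) →
      ∃ T : Finset ι, T ⊆ S \ K ∧ ∏ q ∈ T, c q ≤ ∏ p ∈ S \ K, w p ∧
        ∀ K' : Finset ι, K' ⊆ S → (∀ q ∈ K', ∀ r ∈ S, rel q r → r ∈ K') → K ⊆ K' → T ⊆ K' →
          S ⊆ K' := by
  classical
  induction n using Nat.strong_induction_on with
  | _ n ih =>
    intro K hcard hKS hK0 hKc
    rcases (S \ K).eq_empty_or_nonempty with he | hne
    · refine ⟨∅, Finset.empty_subset _, ?_, ?_⟩
      · rw [he]
        simp
      · intro K' _ _ hKK' _
        exact (Finset.sdiff_eq_empty_iff_subset.mp he).trans hKK'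
    · -- a minimal nonempty predecessor closed subset
      set fam : Finset (Finset ι) := ((S \ K).powerset).filter
        (fun R => R.Nonempty ∧ ∀ r ∈ R, ∀ q ∈ S, rel q r → q ∈ R) with hfam
      have hSK : S \ K ∈ fam := by
        rw [hfam, Finset.mem_filter, Finset.mem_powerset]
        refine ⟨subset_rfl, hne, fun r hr q hq hqr => ?_⟩
        rw [Finset.mem_sdiff] at hr ⊢
        exact ⟨hq, fun hqK => hr.2 (hKc q hqK r hr.1 hqr)⟩
      obtain ⟨R, hR, hmin⟩ := Finset.exists_min_image fam Finset.card ⟨_, hSK⟩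
      rw [hfam, Finset.mem_filter, Finset.mem_powerset] at hR
      obtain ⟨hRsub, hRne, hRpred⟩ := hR
      have hRS0 : R ⊆ S \ K0 := by
        intro r hr
        have h1 := hRsub hr
        rw [Finset.mem_sdiff] at h1 ⊢
        exact ⟨h1.1, fun h2 => h1.2 (hK0 r h1.1 h2)⟩
      obtain ⟨q, hqR, hq⟩ := h R hRS0 hRne hRpred
      have hqSK := Finset.mem_sdiff.mp (hRsub hqR)
      -- the closure of `insert q K`
      set K1 : Finset ι := S.filter (fun p => ∀ L : Finset ι, L ⊆ S → insert q K ⊆ L →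
        (∀ a ∈ L, ∀ r ∈ S, rel a r → r ∈ L) → p ∈ L) with hK1
      have hK1S : K1 ⊆ S := Finset.filter_subset _ _
      have hK1c : ∀ a ∈ K1, ∀ r ∈ S, rel a r → r ∈ K1 := by
        intro a ha r hr har
        rw [hK1, Finset.mem_filter] at ha ⊢
        exact ⟨hr, fun L h1 h2 h3 => h3 a (ha.2 L h1 h2 h3) r hr har⟩
      have hins : insert q K ⊆ K1 := by
        intro a ha
        rw [hK1, Finset.mem_filter]
        refine ⟨?_, fun L _ h2 _ => h2 ha⟩
        rcases Finset.mem_insert.mp ha with rfl | h1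
        · exact hqSK.1
        · exact hKS h1
      have hqK1 : q ∈ K1 := hins (Finset.mem_insert_self _ _)
      have hKK1 : K ⊆ K1 := (Finset.subset_insert _ _).trans hins
      have hRK1 : R ⊆ K1 := by
        by_contra hcon
        rw [← Finset.sdiff_eq_empty_iff_subset] at hcon
        have hne' : (R \ K1).Nonempty := Finset.nonempty_iff_ne_empty.mpr hcon
        have h1 : R \ K1 ∈ fam := by
          rw [hfam, Finset.mem_filter, Finset.mem_powerset]
          refine ⟨Finset.sdiff_subset.trans hRsub, hne', fun r hr a ha har => ?_⟩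
          rw [Finset.mem_sdiff] at hr ⊢
          refine ⟨hRpred r hr.1 a ha har, fun h2 => hr.2 ?_⟩
          exact hK1c a h2 r (Finset.mem_sdiff.mp (hRsub hr.1)).1 har
        have h2 := hmin _ h1
        have h3 : (R \ K1).card < R.card := by
          refine Finset.card_lt_card ⟨Finset.sdiff_subset, fun h4 => ?_⟩
          exact (Finset.mem_sdiff.mp (h4 hqR)).2 hqK1
        omega
      have hlt : (S \ K1).card < n := by
        rw [← hcard]
        refine Finset.card_lt_card ⟨Finset.sdiff_subset_sdiff subset_rfl hKK1, fun h4 => ?_⟩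
        exact (Finset.mem_sdiff.mp (h4 (hRsub hqR))).2 hqK1
      obtain ⟨T1, hT1, hT1p, hT1c⟩ := ih _ hlt K1 rfl hK1S (fun p hp hp0 => hKK1 (hK0 p hp hp0)) hK1c
      have hqT1 : q ∉ T1 := fun h1 => (Finset.mem_sdiff.mp (hT1 h1)).2 hqK1
      refine ⟨insert q T1, ?_, ?_, ?_⟩
      · intro a ha
        rcases Finset.mem_insert.mp ha with rfl | h1
        · exact hRsub hqR
        · exact Finset.sdiff_subset_sdiff subset_rfl hKK1 (hT1 h1)
      · rw [Finset.prod_insert hqT1]
        have hdis : Disjoint R (S \ K1) :=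
          Finset.disjoint_left.mpr fun a ha ha2 => (Finset.mem_sdiff.mp ha2).2 (hRK1 ha)
        calc c q * ∏ a ∈ T1, c a ≤ (∏ p ∈ R, w p) * ∏ p ∈ S \ K1, w p := Nat.mul_le_mul hq hT1p
          _ = ∏ p ∈ R ∪ (S \ K1), w p := (Finset.prod_union hdis).symm
          _ ≤ ∏ p ∈ S \ K, w p := by
              refine Finset.prod_le_prod_of_subset_of_one_le' ?_ ?_
              · exact Finset.union_subset hRsub (Finset.sdiff_subset_sdiff subset_rfl hKK1)
              · intro p hp _
                exact hw p (Finset.mem_sdiff.mp hp).1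
      · intro K' hK'S hK'c hKK' hTK'
        have hsub : insert q K ⊆ K' := by
          intro a ha
          rcases Finset.mem_insert.mp ha with rfl | h1
          · exact hTK' (Finset.mem_insert_self _ _)
          · exact hKK' h1
        refine hT1c K' hK'S hK'c ?_ ((Finset.subset_insert _ _).trans hTK')
        intro a ha
        rw [hK1, Finset.mem_filter] at ha
        exact ha.2 K' hK'S hsub hK'c

/-- Generic lemma.  `S` finite, relation `rel q r` (q hits r), weights `w >= 1` and costs `c`.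
Suppose every nonempty `R` inside `S \ K0` closed under predecessors contains `q` with
`c q <= prod over R of w`.  Then there is `T` inside `S \ K0` with `prod over T of c <= prod over
S \ K0 of w`, such that a subset of `S` containing `S ∩ K0`, containing `T` and closed under
successors is all of `S`.
PROOF. Show by strong induction on the cardinality of `S \ K` : for every `K` with
`S ∩ K0 ⊆ K ⊆ S` closed under successors (in S), there is `T ⊆ S \ K` with
`prod_T c <= prod_(S \ K) w` and: every `K' ⊆ S` closed under successors with `K ⊆ K'`, `T ⊆ K'`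
contains `S`.  If `K = S` take `T = ∅`.  Otherwise `S \ K` is nonempty and closed under predecessors
(a predecessor in K would put the element in K); let `R'` be a minimal nonempty subset of `S \ K`
closed under predecessors (e.g. `Finset.exists_minimal` or minimal cardinality), choose `q` in `R'`
with `c q <= prod_R' w`.  Let `K1` be the smallest successor closed subset of `S` containing `K` and
`q` (for instance the filter of the `p` in `S` which lie in every successor closed subset of `S`
containing `insert q K`).  Then `R' ⊆ K1`: `R' \ K1` is closed under predecessors and is a proper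
subset of `R'` (it misses q), so it is empty by minimality.  Induction for `K1` gives `T1`; put
`T = insert q T1` (`q ∉ T1` since `q ∈ K1`).  `prod_T c = c q * prod_T1 c <= prod_R' w * prod_(S\K1) w
<= prod_(S\K) w` as `R' ⊆ K1 \ K` is disjoint from `S \ K1` and `w >= 1`.
To start: let `K` be the smallest successor closed subset of S containing `S ∩ K0`; then
`prod_(S\K) w <= prod_(S \ K0) w`, `T ⊆ S \ K ⊆ S \ K0`, and any K' as in the statement contains K. -/
theorem exists_guess {ι : Type*} [DecidableEq ι] (S K0 : Finset ι) (rel : ι → ι → Prop)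
    (c w : ι → ℕ) (hw : ∀ p ∈ S, 1 ≤ w p)
    (h : ∀ R : Finset ι, R ⊆ S \ K0 → R.Nonempty → (∀ r ∈ R, ∀ q ∈ S, rel q r → q ∈ R) →
      ∃ q ∈ R, c q ≤ ∏ p ∈ R, w p) :
    ∃ T : Finset ι, T ⊆ S \ K0 ∧ ∏ q ∈ T, c q ≤ ∏ p ∈ S \ K0, w p ∧
      ∀ K : Finset ι, K ⊆ S → (∀ p ∈ S, p ∈ K0 → p ∈ K) → T ⊆ K →
        (∀ q ∈ K, ∀ r ∈ S, rel q r → r ∈ K) → S ⊆ K := by
  classical
  set K : Finset ι := S.filter (fun p => ∀ L : Finset ι, L ⊆ S → (∀ p ∈ S, p ∈ K0 → p ∈ L) →
    (∀ a ∈ L, ∀ r ∈ S, rel a r → r ∈ L) → p ∈ L) with hK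
  have hKS : K ⊆ S := Finset.filter_subset _ _
  have hK0 : ∀ p ∈ S, p ∈ K0 → p ∈ K := by
    intro p hp hp0
    rw [hK, Finset.mem_filter]
    exact ⟨hp, fun L _ h2 _ => h2 p hp hp0⟩
  have hKc : ∀ a ∈ K, ∀ r ∈ S, rel a r → r ∈ K := by
    intro a ha r hr har
    rw [hK, Finset.mem_filter] at ha ⊢
    exact ⟨hr, fun L h1 h2 h3 => h3 a (ha.2 L h1 h2 h3) r hr har⟩
  have hsub : S \ K ⊆ S \ K0 := by
    intro p hp
    rw [Finset.mem_sdiff] at hp ⊢
    exact ⟨hp.1, fun h1 => hp.2 (hK0 p hp.1 h1)⟩
  obtain ⟨T, hT, hTp, hTc⟩ := gue_aux S K0 rel c w hw h _ K rfl hKS hK0 hKc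
  refine ⟨T, hT.trans hsub, hTp.trans ?_, fun L hLS hL0 hTL hLc => ?_⟩
  · refine Finset.prod_le_prod_of_subset_of_one_le' hsub ?_
    intro p hp _
    exact hw p (Finset.mem_sdiff.mp hp).1
  · refine hTc L hLS hLc ?_ hTL
    intro a ha
    rw [hK, Finset.mem_filter] at ha
    exact ha.2 L hLS hL0 hLc

end Pool.Agent.Helper20.FR
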