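import Pool.Agent.Helper20.FR.Anc
import Pool.Agent.Helper20.FR.Gue

/-!
Project FR (MP_649f63_nt), module CLO: choice of the guessed primes.
-/

namespace Pool.Agent.Helper20.FR

/-- PROOF. Apply `exists_guess` with `S = supp a b`, `K0` = the elements of S which are `<= y`,
`rel = Hit a b`, `c q = q^6`, `w p = p^(v_p(a)+v_p(b))`.  For R closed under predecessors, nonempty,
inside `S \ K0`: take `q` = the least element of R; by `anc_six` the sum over R of
`v_p(a)+v_p(b)` is at least 6, so `q^6 <= q^(sum) = prod_R q^(t p) <= prod_R p^(t p)`.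
Finally `prod_(S \ K0) p^(t p) <= prod_S p^(t p) = a b`
(`Nat.factorization_mul`, `Nat.prod_factorization_pow_eq_self`), and
`(prod_T q)^6 = prod_T q^6`. -/
theorem exists_T {a b y : ℕ} (h : Red a b) (hy : 10 ≤ y) (ha : a < 2 ^ y) (hb : b < 2 ^ y) :
    ∃ T : Finset ℕ, T ⊆ supp a b ∧ (∀ p ∈ T, y < p) ∧ (∏ q ∈ T, q) ^ 6 ≤ a * b ∧
      Generates a b y T := by
  obtain ⟨ha0, hb0, -, -⟩ := id h
  have hab : a * b ≠ 0 := (Nat.mul_pos ha0 hb0).ne'
  have hprime : ∀ p ∈ supp a b, p.Prime := fun p hp => Nat.prime_of_mem_primeFactors hp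
  obtain ⟨T, hT1, hT2, hT3⟩ := exists_guess (supp a b) ((supp a b).filter (fun p => p ≤ y))
    (Hit a b) (fun q => q ^ 6) (fun p => p ^ (a.factorization p + b.factorization p))
    (fun p hp => Nat.pos_of_ne_zero (pow_ne_zero _ (hprime p hp).ne_zero)) (by
      intro R hR hne hcl
      have hRS : R ⊆ supp a b := hR.trans Finset.sdiff_subset
      have hbig : ∀ p ∈ R, y < p := by
        intro p hp
        have h1 := Finset.mem_sdiff.1 (hR hp)
        by_contra hle
        exact h1.2 (Finset.mem_filter.2 ⟨h1.1, not_lt.1 hle⟩)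
      have h6 := anc_six h hy ha hb hRS hne hbig hcl
      refine ⟨R.min' hne, Finset.min'_mem _ _, ?_⟩
      have hpos : 0 < R.min' hne := (hprime _ (hRS (Finset.min'_mem _ _))).pos
      calc (R.min' hne) ^ 6 ≤ (R.min' hne) ^ (∑ p ∈ R, (a.factorization p + b.factorization p)) :=
            Nat.pow_le_pow_right hpos h6
        _ = ∏ p ∈ R, (R.min' hne) ^ (a.factorization p + b.factorization p) := by
            rw [Finset.prod_pow_eq_pow_sum]
        _ ≤ ∏ p ∈ R, p ^ (a.factorization p + b.factorization p) := by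
            refine Finset.prod_le_prod' fun p hp => ?_
            exact Nat.pow_le_pow_left (Finset.min'_le _ _ hp) _)
  refine ⟨T, hT1.trans Finset.sdiff_subset, ?_, ?_, ?_⟩
  · intro p hp
    have h1 := Finset.mem_sdiff.1 (hT1 hp)
    by_contra hle
    exact h1.2 (Finset.mem_filter.2 ⟨h1.1, not_lt.1 hle⟩)
  · rw [← Finset.prod_pow]
    refine hT2.trans ?_
    have h1 : ∏ p ∈ supp a b, p ^ (a.factorization p + b.factorization p) = a * b := by
      have h2 := Nat.prod_factorization_pow_eq_self hab
      rw [Nat.factorization_mul ha0.ne' hb0.ne'] at h2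
      rw [Finsupp.prod, ← Nat.factorization_mul ha0.ne' hb0.ne', Nat.support_factorization] at h2
      rw [Nat.factorization_mul ha0.ne' hb0.ne'] at h2
      exact h2
    calc ∏ p ∈ supp a b \ (supp a b).filter (fun p => p ≤ y),
          p ^ (a.factorization p + b.factorization p)
        ≤ ∏ p ∈ supp a b, p ^ (a.factorization p + b.factorization p) := by
          refine Finset.prod_le_prod_of_subset_of_one_le' Finset.sdiff_subset fun p hp _ => ?_
          exact Nat.pos_of_ne_zero (pow_ne_zero _ (hprime p hp).ne_zero)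
      _ = a * b := h1
  · intro K hK h1 h2 h3
    exact hT3 K hK (fun p hp hp' => h1 p hp (Finset.mem_filter.1 hp').2) h2 h3

end Pool.Agent.Helper20.FR
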