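import Mathlib

/-!
Project FR (MP_649f63_nt), module CNT: two elementary counts.  Independent of the other modules.
-/

namespace Pool.Agent.Helper20.FR

/-- The number of `f : ι → ℕ` with sum at most `M`, in generating function form.
PROOF. Reduce to `ι = Fin k` (`Fintype.equivFin`) and induct on k.  k = 0: one function, `z^M <= 1`.
Step: splitting off the first value j (`Fin.cons`), the set for k+1 is the union over `j <= M` of copies
of the set for k with `M - j`, so its cardinality N(k+1,M) is at most the sum of N(k,M-j), and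
`sum_j z^(-(M-j)) (1-z)^(-k) = z^(-M) (1-z)^(-k) sum_(j<=M) z^j <= z^(-M) (1-z)^(-k-1)`. -/
theorem card_sum_le {ι : Type*} [Fintype ι] (M : ℕ) (z : ℝ) (hz0 : 0 < z) (hz1 : z < 1) :
    {f : ι → ℕ | ∑ i, f i ≤ M}.Finite ∧
      ({f : ι → ℕ | ∑ i, f i ≤ M}.ncard : ℝ) * (z ^ M * (1 - z) ^ Fintype.card ι) ≤ 1 := by
  classical
  set P : Finset (ι → ℕ) := Fintype.piFinset (fun _ => Finset.range (M + 1)) with hP
  set A : Finset (ι → ℕ) := P.filter (fun f => ∑ i, f i ≤ M) with hA
  have hS : {f : ι → ℕ | ∑ i, f i ≤ M} = (A : Set (ι → ℕ)) := by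
    ext f
    rw [hA, Finset.coe_filter]
    constructor
    · intro hf
      have hf : ∑ i, f i ≤ M := hf
      refine ⟨?_, hf⟩
      rw [hP, Fintype.mem_piFinset]
      intro i
      rw [Finset.mem_range]
      have := Finset.single_le_sum (f := f) (fun j _ => Nat.zero_le _) (Finset.mem_univ i)
      omega
    · intro hf
      exact hf.2
  rw [hS]
  refine ⟨A.finite_toSet, ?_⟩
  rw [Set.ncard_coe_finset]
  have h1 : (A.card : ℝ) * z ^ M ≤ ∑ f ∈ A, z ^ (∑ i, f i) := by
    rw [← nsmul_eq_mul, ← Finset.sum_const]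
    apply Finset.sum_le_sum
    intro f hf
    rw [hA, Finset.mem_filter] at hf
    exact pow_le_pow_of_le_one hz0.le hz1.le hf.2
  have h2 : ∑ f ∈ A, z ^ (∑ i, f i) ≤ ∑ f ∈ P, ∏ i, z ^ f i := by
    have : ∀ f : ι → ℕ, z ^ (∑ i, f i) = ∏ i, z ^ f i := fun f => by
      rw [Finset.prod_pow_eq_pow_sum]
    simp_rw [this]
    apply Finset.sum_le_sum_of_subset_of_nonneg (Finset.filter_subset _ _)
    intro f _ _
    positivity
  have h3 : ∑ f ∈ P, ∏ i, z ^ f i = (∑ j ∈ Finset.range (M + 1), z ^ j) ^ Fintype.card ι := by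
    rw [hP, ← Finset.prod_univ_sum (fun _ : ι => Finset.range (M + 1)) (fun _ j => z ^ j),
      Finset.prod_const, Finset.card_univ]
  have h4 : (∑ j ∈ Finset.range (M + 1), z ^ j) * (1 - z) ≤ 1 := by
    have := geom_sum_mul_neg z (M + 1)
    rw [this]
    have : 0 < z ^ (M + 1) := by positivity
    linarith
  have h5 : 0 ≤ (∑ j ∈ Finset.range (M + 1), z ^ j) * (1 - z) := by
    have : 0 < 1 - z := by linarith
    positivity
  have h6 : 0 < (1 - z) ^ Fintype.card ι := pow_pos (by linarith) _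
  calc (A.card : ℝ) * (z ^ M * (1 - z) ^ Fintype.card ι)
      = ((A.card : ℝ) * z ^ M) * (1 - z) ^ Fintype.card ι := by ring
    _ ≤ (∑ j ∈ Finset.range (M + 1), z ^ j) ^ Fintype.card ι * (1 - z) ^ Fintype.card ι := by
        apply mul_le_mul_of_nonneg_right _ h6.le
        rw [← h3]
        exact h1.trans h2
    _ = ((∑ j ∈ Finset.range (M + 1), z ^ j) * (1 - z)) ^ Fintype.card ι := by rw [mul_pow]
    _ ≤ 1 := pow_le_one₀ h5 h4

end Pool.Agent.Helper20.FR
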