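import Pool.Agent.Helper20.FR.Sig

/-!
Project FR (MP_649f63_nt), module DEC: every solution is uniquely d times a reduced one, d coprime to it.
-/

namespace Pool.Agent.Helper20.FR

open ArithmeticFunction

theorem dec_prod {n : ℕ} (hn : n ≠ 0) : n = ∏ p ∈ n.primeFactors, p ^ n.factorization p := by
  have h2 := Nat.prod_factorization_pow_eq_self hn
  rw [Finsupp.prod, Nat.support_factorization] at h2
  exact h2.symm

/-- If `(a0,b0)` is reduced, `a0 < b0` and `d > 0` is coprime to `a0 b0`, then `(d a0, d b0)` is a solution. -/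
theorem sol_of_red {d a0 b0 : ℕ} (hd : 0 < d) (h : Red a0 b0) (hlt : a0 < b0)
    (hc : Nat.Coprime d (a0 * b0)) : Sol (d * a0) (d * b0) := by
  obtain ⟨ha, hb, he, -⟩ := h
  have hca : Nat.Coprime d a0 := Nat.Coprime.coprime_mul_right_right hc
  have hcb : Nat.Coprime d b0 := Nat.Coprime.coprime_mul_left_right hc
  refine ⟨Nat.mul_pos hd ha, Nat.mul_lt_mul_of_pos_left hlt hd, ?_⟩
  rw [isMultiplicative_sigma.map_mul_of_coprime hca, isMultiplicative_sigma.map_mul_of_coprime hcb]
  calc sigma 1 d * sigma 1 a0 * (d * b0) = sigma 1 d * d * (sigma 1 a0 * b0) := by ring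
    _ = sigma 1 d * d * (sigma 1 b0 * a0) := by rw [he]
    _ = sigma 1 d * sigma 1 b0 * (d * a0) := by ring

/-- PROOF. Let `d` be the product over the primes `p | a` with `v_p(a) = v_p(b)` of `p^(v_p(a))`,
`a0 = a/d`, `b0 = b/d`.  Then d is coprime to a0 and b0, so sigma is multiplicative on these products
and `(a0,b0)` satisfies the equation; a prime dividing `a0 b0` is not one of the primes of d, so its
exponents in a0, b0 are those in a, b and they are different. -/
theorem exists_red_of_sol {a b : ℕ} (h : Sol a b) :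
    ∃ d a0 b0 : ℕ, 0 < d ∧ Red a0 b0 ∧ a0 < b0 ∧ Nat.Coprime d (a0 * b0) ∧ a = d * a0 ∧ b = d * b0 := by
  obtain ⟨ha, hab, he⟩ := h
  have hb : 0 < b := ha.trans hab
  set W := a.primeFactors.filter (fun p => a.factorization p = b.factorization p) with hW
  have hWa : W ⊆ a.primeFactors := Finset.filter_subset _ _
  have hWeq : ∀ p ∈ W, a.factorization p = b.factorization p := fun p hp =>
    (Finset.mem_filter.1 hp).2
  have hWb : W ⊆ b.primeFactors := by
    intro p hp
    rw [← Nat.support_factorization, Finsupp.mem_support_iff, ← hWeq p hp,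
      ← Finsupp.mem_support_iff, Nat.support_factorization]
    exact hWa hp
  set d := ∏ p ∈ W, p ^ a.factorization p with hd
  set a0 := ∏ p ∈ a.primeFactors \ W, p ^ a.factorization p with ha0
  set b0 := ∏ p ∈ b.primeFactors \ W, p ^ b.factorization p with hb0
  have hd' : d = ∏ p ∈ W, p ^ b.factorization p :=
    Finset.prod_congr rfl fun p hp => by rw [hWeq p hp]
  have ea : a = d * a0 := by
    have h1 := dec_prod ha.ne'
    conv_lhs => rw [h1]
    rw [hd, ha0, mul_comm, Finset.prod_sdiff hWa]
  have eb : b = d * b0 := by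
    have h1 := dec_prod hb.ne'
    conv_lhs => rw [h1]
    rw [hd', hb0, mul_comm, Finset.prod_sdiff hWb]
  have hdpos : 0 < d := Nat.pos_of_ne_zero fun h => by rw [h, zero_mul] at ea; omega
  have ha0pos : 0 < a0 := Nat.pos_of_ne_zero fun h => by rw [h, mul_zero] at ea; omega
  have hb0pos : 0 < b0 := Nat.pos_of_ne_zero fun h => by rw [h, mul_zero] at eb; omega
  have hca : Nat.Coprime d a0 := by
    refine Nat.Coprime.prod_left fun p hp => Nat.Coprime.prod_right fun q hq => ?_
    obtain ⟨hq1, hq2⟩ := Finset.mem_sdiff.1 hq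
    exact Nat.coprime_pow_primes _ _ (Nat.prime_of_mem_primeFactors (hWa hp))
      (Nat.prime_of_mem_primeFactors hq1) (fun h => hq2 (h ▸ hp))
  have hcb : Nat.Coprime d b0 := by
    refine Nat.Coprime.prod_left fun p hp => Nat.Coprime.prod_right fun q hq => ?_
    obtain ⟨hq1, hq2⟩ := Finset.mem_sdiff.1 hq
    exact Nat.coprime_pow_primes _ _ (Nat.prime_of_mem_primeFactors (hWa hp))
      (Nat.prime_of_mem_primeFactors hq1) (fun h => hq2 (h ▸ hp))
  have hc : Nat.Coprime d (a0 * b0) := Nat.Coprime.mul_right hca hcb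
  refine ⟨d, a0, b0, hdpos, ⟨ha0pos, hb0pos, ?_, ?_⟩, ?_, hc, ea, eb⟩
  · have h1 := he
    rw [ea, eb, isMultiplicative_sigma.map_mul_of_coprime hca,
      isMultiplicative_sigma.map_mul_of_coprime hcb] at h1
    have h2 : 0 < sigma 1 d * d := Nat.mul_pos (sigma_pos 1 d hdpos.ne') hdpos
    refine Nat.eq_of_mul_eq_mul_left h2 ?_
    calc sigma 1 d * d * (sigma 1 a0 * b0) = sigma 1 d * sigma 1 a0 * (d * b0) := by ring
      _ = sigma 1 d * sigma 1 b0 * (d * a0) := h1
      _ = sigma 1 d * d * (sigma 1 b0 * a0) := by ring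
  · intro q hq hqd hfe
    have hqd' : ¬ q ∣ d := fun h =>
      Nat.Prime.one_lt hq |>.ne' (Nat.dvd_one.1 (hc ▸ Nat.dvd_gcd h hqd))
    have f0 : d.factorization q = 0 := Nat.factorization_eq_zero_of_not_dvd hqd'
    have fa : a.factorization q = a0.factorization q := by
      conv_lhs => rw [ea, Nat.factorization_mul hdpos.ne' ha0pos.ne', Finsupp.add_apply, f0,
        zero_add]
    have fb : b.factorization q = b0.factorization q := by
      conv_lhs => rw [eb, Nat.factorization_mul hdpos.ne' hb0pos.ne', Finsupp.add_apply, f0,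
        zero_add]
    have hfe' : a.factorization q = b.factorization q := by rw [fa, fb, hfe]
    have hqa : q ∈ a.primeFactors := by
      rcases (hq.dvd_mul).1 hqd with h1 | h1
      · exact Nat.mem_primeFactors.2 ⟨hq, ea ▸ h1.mul_left d, ha.ne'⟩
      · have h2 : q ∈ b.primeFactors := Nat.mem_primeFactors.2 ⟨hq, eb ▸ h1.mul_left d, hb.ne'⟩
        rw [← Nat.support_factorization, Finsupp.mem_support_iff] at h2 ⊢
        rw [hfe']; exact h2
    have hqW : q ∈ W := Finset.mem_filter.2 ⟨hqa, hfe'⟩
    apply hqd'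
    rw [hd]
    refine dvd_trans ?_ (Finset.dvd_prod_of_mem (fun p => p ^ a.factorization p) hqW)
    refine dvd_pow_self q ?_
    rw [← Nat.support_factorization, Finsupp.mem_support_iff] at hqa
    exact hqa
  · rw [ea, eb] at hab
    exact lt_of_mul_lt_mul_left hab (Nat.zero_le _)

/-- PROOF. The primes of `d` are exactly the primes p with `v_p(d a0) = v_p(d b0) > 0` : for such p, if
p did not divide d, then p would divide a0 b0 and have equal exponents in a0 and b0.  And
`v_p(d) = v_p(d a0)` for these.  So `d a0`, `d b0` determine the factorization of d. -/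
theorem decomp_unique {d a0 b0 d' a0' b0' : ℕ} (hd : 0 < d) (h : Red a0 b0)
    (hc : Nat.Coprime d (a0 * b0)) (hd' : 0 < d') (h' : Red a0' b0')
    (hc' : Nat.Coprime d' (a0' * b0')) (h1 : d * a0 = d' * a0') (h2 : d * b0 = d' * b0') :
    d = d' ∧ a0 = a0' ∧ b0 = b0' := by
  have key : ∀ {d a0 b0 : ℕ}, 0 < d → Red a0 b0 → Nat.Coprime d (a0 * b0) → ∀ p, p.Prime →
      d.factorization p = if (d * a0).factorization p = (d * b0).factorization p then
        (d * a0).factorization p else 0 := by
    intro d a0 b0 hd h hc p hp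
    obtain ⟨ha, hb, -, hne⟩ := h
    rw [Nat.factorization_mul hd.ne' ha.ne', Nat.factorization_mul hd.ne' hb.ne',
      Finsupp.add_apply, Finsupp.add_apply]
    by_cases hpd : p ∣ a0 * b0
    · have h1 : ¬ p ∣ d := fun h => hp.one_lt.ne' (Nat.dvd_one.1 (hc ▸ Nat.dvd_gcd h hpd))
      have h2 := hne p hp hpd
      rw [if_neg (by omega), Nat.factorization_eq_zero_of_not_dvd h1]
    · have h1 : a0.factorization p = 0 :=
        Nat.factorization_eq_zero_of_not_dvd fun h => hpd (h.mul_right b0)
      have h2 : b0.factorization p = 0 :=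
        Nat.factorization_eq_zero_of_not_dvd fun h => hpd (h.mul_left a0)
      rw [h1, h2, if_pos rfl, add_zero]
  have hdd : d = d' := by
    refine Nat.eq_of_factorization_eq hd.ne' hd'.ne' fun p => ?_
    by_cases hp : p.Prime
    · rw [key hd h hc p hp, key hd' h' hc' p hp, h1, h2]
    · rw [Nat.factorization_eq_zero_of_not_prime _ hp, Nat.factorization_eq_zero_of_not_prime _ hp]
  subst hdd
  exact ⟨rfl, Nat.eq_of_mul_eq_mul_left hd h1, Nat.eq_of_mul_eq_mul_left hd h2⟩

end Pool.Agent.Helper20.FR
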