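import Pool.Agent.Helper20.FR.Dec

/-!
Project FR (MP_649f63_nt), module DE2: counting solutions through reduced ones.
-/

namespace Pool.Agent.Helper20.FR

open ArithmeticFunction

/-- the solutions `(a,b)` with `b <= x` -/
def solUpTo (x : ℕ) : Set (ℕ × ℕ) := {p : ℕ × ℕ | Sol p.1 p.2 ∧ p.2 ≤ x}

/-- the reduced solutions `(a,b)` with `a < b <= x`, as a finset -/
noncomputable def redLt (x : ℕ) : Finset (ℕ × ℕ) :=
  open Classical in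
  ((Finset.range (x + 1)) ×ˢ (Finset.range (x + 1))).filter (fun p => Red p.1 p.2 ∧ p.1 < p.2)

/-- PROOF. By the three theorems above, `(d, (a0,b0)) ↦ (d a0, d b0)` is a bijection from the pairs with
`(a0,b0)` in `redLt x`, `1 <= d <= x / b0`, d coprime to `a0 b0`, onto `solUpTo x`
(`Finset.card_sigma` or `Set.ncard_congr`). -/
theorem sol_count (x : ℕ) :
    (solUpTo x).ncard = ∑ p ∈ redLt x,
      ((Finset.Icc 1 (x / p.2)).filter (fun d => Nat.Coprime d (p.1 * p.2))).card := by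
  classical
  rw [← Finset.card_sigma]
  set S := (redLt x).sigma
    (fun p => (Finset.Icc 1 (x / p.2)).filter (fun d => Nat.Coprime d (p.1 * p.2))) with hS
  have hmem : ∀ w : (Σ _ : ℕ × ℕ, ℕ), w ∈ S ↔ (Red w.1.1 w.1.2 ∧ w.1.1 < w.1.2 ∧ w.1.2 ≤ x) ∧
      1 ≤ w.2 ∧ w.2 ≤ x / w.1.2 ∧ Nat.Coprime w.2 (w.1.1 * w.1.2) := by
    rintro ⟨⟨a0, b0⟩, d⟩
    simp only [hS, redLt, Finset.mem_sigma, Finset.mem_filter, Finset.mem_product,
      Finset.mem_range, Finset.mem_Icc]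
    constructor
    · rintro ⟨⟨⟨h1, h2⟩, h3, h4⟩, ⟨h5, h6⟩, h7⟩
      exact ⟨⟨h3, h4, by omega⟩, h5, h6, h7⟩
    · rintro ⟨⟨h1, h2, h3⟩, h4, h5, h6⟩
      exact ⟨⟨⟨by omega, by omega⟩, h1, h2⟩, ⟨h4, h5⟩, h6⟩
  have hinj : Set.InjOn (fun w : (Σ _ : ℕ × ℕ, ℕ) => (w.2 * w.1.1, w.2 * w.1.2)) (S : Set _) := by
    rintro ⟨⟨a0, b0⟩, d⟩ hw ⟨⟨a0', b0'⟩, d'⟩ hw' heq
    obtain ⟨⟨h1, h2, h3⟩, h4, h5, h6⟩ := (hmem _).1 (Finset.mem_coe.1 hw)
    obtain ⟨⟨h1', h2', h3'⟩, h4', h5', h6'⟩ := (hmem _).1 (Finset.mem_coe.1 hw')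
    simp only [Prod.mk.injEq] at heq
    obtain ⟨e1, e2, e3⟩ := decomp_unique (by exact h4) h1 h6 (by exact h4') h1' h6' heq.1 heq.2
    subst e1 e2 e3
    rfl
  have himg : solUpTo x =
      ((S.image (fun w : (Σ _ : ℕ × ℕ, ℕ) => (w.2 * w.1.1, w.2 * w.1.2)) : Finset (ℕ × ℕ)) :
        Set (ℕ × ℕ)) := by
    ext ⟨a, b⟩
    rw [Finset.mem_coe, Finset.mem_image]
    constructor
    · rintro ⟨hsol, hb⟩
      obtain ⟨d, a0, b0, hd, hred, hlt, hc, ha', hb'⟩ := exists_red_of_sol hsol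
      simp only at ha' hb' hb
      refine ⟨⟨(a0, b0), d⟩, (hmem _).2 ⟨⟨hred, hlt, ?_⟩, hd, ?_, hc⟩, ?_⟩
      · show b0 ≤ x
        have : b0 ≤ d * b0 := Nat.le_mul_of_pos_left b0 hd
        omega
      · show d ≤ x / b0
        rw [Nat.le_div_iff_mul_le (by omega)]
        omega
      · simp [ha', hb']
    · rintro ⟨⟨⟨a0, b0⟩, d⟩, hw, heq⟩
      obtain ⟨⟨h1, h2, h3⟩, h4, h5, h6⟩ := (hmem _).1 hw
      simp only [Prod.mk.injEq] at heq h1 h2 h3 h4 h5 h6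
      obtain ⟨rfl, rfl⟩ := heq
      refine ⟨sol_of_red h4 h1 h2 h6, ?_⟩
      show d * b0 ≤ x
      have hb0 : 0 < b0 := by omega
      exact (Nat.le_div_iff_mul_le hb0).1 h5
  rw [himg, Set.ncard_coe_finset, Finset.card_image_of_injOn hinj]

end Pool.Agent.Helper20.FR
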