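import Mathlib

/-!
Project FR (MP_649f63_nt): the equation sigma(a)/a = sigma(b)/b.  Definitions.
-/

namespace Pool.Agent.Helper20.FR

open ArithmeticFunction

/-- `(a,b)` is a solution of `sigma(a)/a = sigma(b)/b` with `0 < a < b`. -/
def Sol (a b : ℕ) : Prop := 0 < a ∧ a < b ∧ sigma 1 a * b = sigma 1 b * a

/-- `(a,b)` is a primitive solution: no common divisor `d > 1` gives the solution `(a/d, b/d)`. -/
def Prim (a b : ℕ) : Prop := Sol a b ∧ ∀ d : ℕ, 1 < d → d ∣ a → d ∣ b → ¬ Sol (a / d) (b / d)

/-- Reduced pair (symmetric in `a` and `b`): same abundancy, and no prime has the same positive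
exponent in `a` and in `b`. -/
def Red (a b : ℕ) : Prop :=
  0 < a ∧ 0 < b ∧ sigma 1 a * b = sigma 1 b * a ∧
    ∀ q : ℕ, q.Prime → q ∣ a * b → a.factorization q ≠ b.factorization q

/-- The primes of the pair. -/
def supp (a b : ℕ) : Finset ℕ := (a * b).primeFactors

/-- The prime `q` (with its exponents in `a` and `b`) hits `r`. -/
def Hit (a b q r : ℕ) : Prop :=
  r ∣ sigma 1 (q ^ a.factorization q) ∨ r ∣ sigma 1 (q ^ b.factorization q)

/-- A set of primes closed under predecessors for the relation `Hit`. -/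
def AncClosed (a b : ℕ) (R : Finset ℕ) : Prop :=
  ∀ r ∈ R, ∀ q ∈ supp a b, Hit a b q r → q ∈ R

/-- The only subset of the support which contains all primes of the support up to `y`, contains `T`
and is closed under successors, is the whole support. -/
def Generates (a b y : ℕ) (T : Finset ℕ) : Prop :=
  ∀ K : Finset ℕ, K ⊆ supp a b → (∀ p ∈ supp a b, p ≤ y → p ∈ K) → (∀ p ∈ T, p ∈ K) →
    (∀ q ∈ K, ∀ r ∈ supp a b, Hit a b q r → r ∈ K) → supp a b ⊆ K

end Pool.Agent.Helper20.FR
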