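import Pool.Agent.Helper20.FR.Sig

/-!
Project FR (MP_649f63_nt), module ENC: the closure process and its code.
-/

namespace Pool.Agent.Helper20.FR

open ArithmeticFunction

/-- the part of `n` supported on `V` (elements of V which are not primes contribute the factor 1) -/
def res (V : Finset ℕ) (n : ℕ) : ℕ := ∏ p ∈ V, p ^ n.factorization p

/-- the next number to look at: the least prime outside `V` dividing `sigma(A) sigma(B)`; if there is
none, the least element of `T` outside `V`; if there is none, 0. -/
noncomputable def nxt (A B : ℕ) (T V : Finset ℕ) : ℕ :=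
  if h : ((sigma 1 A * sigma 1 B).primeFactors \ V).Nonempty then
    ((sigma 1 A * sigma 1 B).primeFactors \ V).min' h
  else if h' : (T \ V).Nonempty then (T \ V).min' h' else 0

/-- the sets of visited primes -/
noncomputable def visited (a b : ℕ) (T V0 : Finset ℕ) : ℕ → Finset ℕ
  | 0 => V0
  | i + 1 => insert (nxt (res (visited a b T V0 i) a) (res (visited a b T V0 i) b) T
      (visited a b T V0 i)) (visited a b T V0 i)

/-- the prime treated at step `i` (or 0) -/
noncomputable def step (a b : ℕ) (T V0 : Finset ℕ) (i : ℕ) : ℕ :=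
  nxt (res (visited a b T V0 i) a) (res (visited a b T V0 i) b) T (visited a b T V0 i)

theorem visited_zero (a b : ℕ) (T V0 : Finset ℕ) : visited a b T V0 0 = V0 := rfl

theorem visited_succ (a b : ℕ) (T V0 : Finset ℕ) (i : ℕ) :
    visited a b T V0 (i + 1) = insert (step a b T V0 i) (visited a b T V0 i) := rfl

theorem enc_res_inter (V : Finset ℕ) (n : ℕ) :
    res V n = ∏ p ∈ V ∩ n.primeFactors, p ^ n.factorization p := by
  unfold res
  symm
  refine Finset.prod_subset Finset.inter_subset_left fun p hp hp' => ?_
  have h1 : n.factorization p = 0 := by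
    rw [← Finsupp.notMem_support_iff, Nat.support_factorization]
    intro h2
    exact hp' (Finset.mem_inter.2 ⟨hp, h2⟩)
  rw [h1, pow_zero]

theorem enc_sigma_prod {W : Finset ℕ} {n : ℕ} (hW : W ⊆ n.primeFactors) :
    sigma 1 (∏ p ∈ W, p ^ n.factorization p) = ∏ p ∈ W, sigma 1 (p ^ n.factorization p) := by
  refine IsMultiplicative.map_prod _ isMultiplicative_sigma W fun p hp q hq hpq => ?_
  exact Nat.coprime_pow_primes _ _ (Nat.prime_of_mem_primeFactors (hW hp))
    (Nat.prime_of_mem_primeFactors (hW hq)) hpq

theorem res_pos (V : Finset ℕ) (n : ℕ) : 0 < res V n := by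
  rw [enc_res_inter]
  refine Finset.prod_pos fun p hp => ?_
  exact pow_pos (Nat.prime_of_mem_primeFactors (Finset.mem_inter.1 hp).2).pos _

/-- if V contains all prime factors of n then the part is n -/
theorem res_eq_self {V : Finset ℕ} {n : ℕ} (hn : n ≠ 0) (h : n.primeFactors ⊆ V) :
    res V n = n := by
  rw [enc_res_inter, Finset.inter_eq_right.2 h]
  have h2 := Nat.prod_factorization_pow_eq_self hn
  rw [Finsupp.prod, Nat.support_factorization] at h2
  exact h2

theorem res_insert {V : Finset ℕ} {n r : ℕ} (h : r ∉ V) :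
    res (insert r V) n = r ^ n.factorization r * res V n := by
  unfold res
  rw [Finset.prod_insert h]

/-- `res V n` divides `n`, and so `sigma (res V n)` divides `sigma n` (the part and the cofactor are
coprime).  Only the last statement is needed. -/
theorem sigma_res_dvd {V : Finset ℕ} {n : ℕ} (hn : n ≠ 0) : sigma 1 (res V n) ∣ sigma 1 n := by
  have h1 : sigma 1 n = ∏ p ∈ n.primeFactors, sigma 1 (p ^ n.factorization p) := by
    conv_lhs => rw [← res_eq_self hn (Finset.Subset.refl n.primeFactors)]
    rw [enc_res_inter, Finset.inter_self, enc_sigma_prod (Finset.Subset.refl _)]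
  rw [h1, enc_res_inter, enc_sigma_prod Finset.inter_subset_right]
  exact Finset.prod_dvd_prod_of_subset _ _ _ Finset.inter_subset_right

/-- a prime `q` of `V` with `q | n`: `sigma(q^(v_q n))` divides `sigma (res V n)` -/
theorem sigma_pow_dvd_res {V : Finset ℕ} {n q : ℕ} (hn : n ≠ 0) (hq : q.Prime) (hqV : q ∈ V) :
    sigma 1 (q ^ n.factorization q) ∣ sigma 1 (res V n) := by
  by_cases h : q ∈ n.primeFactors
  · rw [enc_res_inter, enc_sigma_prod Finset.inter_subset_right]
    exact Finset.dvd_prod_of_mem (fun p => sigma 1 (p ^ n.factorization p))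
      (Finset.mem_inter.2 ⟨hqV, h⟩)
  · have h1 : n.factorization q = 0 := by
      rw [← Finsupp.notMem_support_iff, Nat.support_factorization]
      exact h
    rw [h1, pow_zero, sigma_one_apply]
    simp

/-- the step is 0 or a new element -/
theorem nxt_eq_zero_or (A B : ℕ) (T V : Finset ℕ) (hT : ∀ p ∈ T, p.Prime) :
    nxt A B T V = 0 ∨ (nxt A B T V ∉ V ∧ (nxt A B T V).Prime ∧
      (nxt A B T V ∣ sigma 1 A * sigma 1 B ∨ nxt A B T V ∈ T)) := by
  unfold nxt
  split_ifs with h h'
  · right
    have h1 := Finset.min'_mem _ h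
    set r := ((sigma 1 A * sigma 1 B).primeFactors \ V).min' h with hr
    obtain ⟨h2, h3⟩ := Finset.mem_sdiff.1 h1
    exact ⟨h3, Nat.prime_of_mem_primeFactors h2, Or.inl (Nat.dvd_of_mem_primeFactors h2)⟩
  · right
    have h1 := Finset.min'_mem _ h'
    obtain ⟨h2, h3⟩ := Finset.mem_sdiff.1 h1
    exact ⟨h3, hT _ h2, Or.inr h2⟩
  · left; rfl

end Pool.Agent.Helper20.FR
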