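import Pool.Agent.Helper20.FR.Enc

/-!
Project FR (MP_649f63_nt), module ENX: all primes are visited.
-/

namespace Pool.Agent.Helper20.FR

open ArithmeticFunction

lemma encexh_nxt_zero {A B : ℕ} {T V : Finset ℕ} (hT : ∀ p ∈ T, p.Prime) (h : nxt A B T V = 0) :
    (sigma 1 A * sigma 1 B).primeFactors ⊆ V ∧ T ⊆ V := by
  unfold nxt at h
  split_ifs at h with h1 h2
  · exfalso
    have h3 := Finset.min'_mem _ h1
    rw [h] at h3
    exact Nat.not_prime_zero (Nat.prime_of_mem_primeFactors (Finset.mem_sdiff.1 h3).1)
  · exfalso
    have h3 := Finset.min'_mem _ h2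
    rw [h] at h3
    exact Nat.not_prime_zero (hT _ (Finset.mem_sdiff.1 h3).1)
  · rw [Finset.not_nonempty_iff_eq_empty, Finset.sdiff_eq_empty_iff_subset] at h1 h2
    exact ⟨h1, h2⟩

lemma encexh_mono (a b : ℕ) (T V0 : Finset ℕ) (i : ℕ) : V0 ⊆ visited a b T V0 i := by
  induction i with
  | zero => exact Finset.Subset.refl _
  | succ i ih =>
    rw [visited_succ]
    exact ih.trans (Finset.subset_insert _ _)

/-- EXHAUSTION.  Let `W` be the set of the primes above `y` dividing `sigma(a) sigma(b) a b`.  If `T`
generates and `L >= card W` then after L steps all primes of the pair have been visited.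
PROOF. Claim: for all i, `supp a b ⊆ visited i` or `i <= card (W ∩ visited i)`.  Step: if
`supp a b ⊄ visited i` then the step is not 0: otherwise all primes dividing
`sigma(res a) sigma(res b)` and all of T are in `visited i`, so `K = supp a b ∩ visited i` contains
the primes `<= y` (they are in V0), contains T and is closed under `Hit` (`sigma_pow_dvd_res`), so
`supp a b ⊆ K` by `Generates`.  So the step is a prime outside `visited i` (hence above y), dividing
`sigma(a) sigma(b)` (`sigma_res_dvd`) or in `T ⊆ supp a b`; so it is a new element of W and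
`card (W ∩ visited (i+1)) >= i+1`.
Finally for `i = L >= card W`: in the second case `W ⊆ visited L`, and every prime of the support is
`<= y` (in V0) or in W. -/
theorem enc_exhaust {a b y L : ℕ} {T : Finset ℕ} (h : Red a b) (hT : T ⊆ supp a b)
    (hgen : Generates a b y T)
    (hL : ((sigma 1 a * sigma 1 b * (a * b)).primeFactors.filter (fun p => y < p)).card ≤ L) :
    supp a b ⊆ visited a b T (Nat.primesLE y) L := by
  obtain ⟨ha, hb, _, _⟩ := h
  have ha0 : a ≠ 0 := ha.ne'
  have hb0 : b ≠ 0 := hb.ne'
  have hσa : sigma 1 a ≠ 0 := (sigma_pos 1 a ha0).ne'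
  have hσb : sigma 1 b ≠ 0 := (sigma_pos 1 b hb0).ne'
  have hTp : ∀ p ∈ T, p.Prime := fun p hp => Nat.prime_of_mem_primeFactors (hT hp)
  set W := (sigma 1 a * sigma 1 b * (a * b)).primeFactors.filter (fun p => y < p) with hW
  have hV0 : ∀ (i p : ℕ), p.Prime → p ≤ y → p ∈ visited a b T (Nat.primesLE y) i := by
    intro i p hp hpy
    exact encexh_mono a b T _ i (Nat.mem_primesLE.2 ⟨hpy, hp⟩)
  have claim : ∀ i : ℕ, supp a b ⊆ visited a b T (Nat.primesLE y) i ∨
      i ≤ (W ∩ visited a b T (Nat.primesLE y) i).card := by
    intro i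
    induction i with
    | zero => exact Or.inr (Nat.zero_le _)
    | succ i ih =>
      by_cases hsub : supp a b ⊆ visited a b T (Nat.primesLE y) i
      · left
        rw [visited_succ]
        exact hsub.trans (Finset.subset_insert _ _)
      right
      have hi : i ≤ (W ∩ visited a b T (Nat.primesLE y) i).card := ih.resolve_left hsub
      set V := visited a b T (Nat.primesLE y) i with hV
      rcases nxt_eq_zero_or (res V a) (res V b) T V hTp with h0 | ⟨h1, h2, h3⟩
      · exfalso
        apply hsub
        obtain ⟨h4, h5⟩ := encexh_nxt_zero hTp h0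
        have h6 : supp a b ⊆ supp a b ∩ V := by
          refine hgen _ Finset.inter_subset_left ?_ ?_ ?_
          · intro p hp hpy
            exact Finset.mem_inter.2 ⟨hp, hV0 i p (Nat.prime_of_mem_primeFactors hp) hpy⟩
          · intro p hp
            exact Finset.mem_inter.2 ⟨hT hp, h5 hp⟩
          · intro q hq r hr hqr
            refine Finset.mem_inter.2 ⟨hr, h4 ?_⟩
            obtain ⟨hq1, hq2⟩ := Finset.mem_inter.1 hq
            have hqp : q.Prime := Nat.prime_of_mem_primeFactors hq1
            have hrp : r.Prime := Nat.prime_of_mem_primeFactors hr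
            rw [Nat.mem_primeFactors]
            refine ⟨hrp, ?_, ?_⟩
            · rcases hqr with h7 | h7
              · exact Dvd.dvd.mul_right (h7.trans (sigma_pow_dvd_res ha0 hqp hq2)) _
              · exact Dvd.dvd.mul_left (h7.trans (sigma_pow_dvd_res hb0 hqp hq2)) _
            · exact mul_ne_zero (sigma_pos 1 _ (res_pos V a).ne').ne'
                (sigma_pos 1 _ (res_pos V b).ne').ne'
        exact h6.trans Finset.inter_subset_right
      · have hstep : step a b T (Nat.primesLE y) i = nxt (res V a) (res V b) T V := rfl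
        rw [visited_succ, hstep]
        set s := nxt (res V a) (res V b) T V with hs
        have hsW : s ∈ W := by
          rw [hW, Finset.mem_filter, Nat.mem_primeFactors]
          refine ⟨⟨h2, ?_, mul_ne_zero (mul_ne_zero hσa hσb) (mul_ne_zero ha0 hb0)⟩, ?_⟩
          · rcases h3 with h3 | h3
            · exact Dvd.dvd.mul_right
                (h3.trans (mul_dvd_mul (sigma_res_dvd ha0) (sigma_res_dvd hb0))) _
            · exact Dvd.dvd.mul_left (Nat.dvd_of_mem_primeFactors (hT h3)) _
          · by_contra hle
            exact h1 (hV0 i s h2 (not_lt.1 hle))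
        rw [Finset.inter_insert_of_mem hsW, Finset.card_insert_of_notMem
          (fun h4 => h1 (Finset.mem_inter.1 h4).2)]
        omega
  rcases claim L with h1 | h1
  · exact h1
  · have h2 : W ∩ visited a b T (Nat.primesLE y) L = W :=
      Finset.eq_of_subset_of_card_le Finset.inter_subset_left (hL.trans h1)
    intro p hp
    by_cases hpy : p ≤ y
    · exact hV0 L p (Nat.prime_of_mem_primeFactors hp) hpy
    · have h3 : p ∈ W := by
        rw [hW, Finset.mem_filter, Nat.mem_primeFactors]
        exact ⟨⟨Nat.prime_of_mem_primeFactors hp,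
          Dvd.dvd.mul_left (Nat.dvd_of_mem_primeFactors hp) _,
          mul_ne_zero (mul_ne_zero hσa hσb) (mul_ne_zero ha0 hb0)⟩, not_le.1 hpy⟩
      rw [← h2] at h3
      exact (Finset.mem_inter.1 h3).2

end Pool.Agent.Helper20.FR
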