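import Pool.Agent.Helper20.FR.Enc

/-!
Project FR (MP_649f63_nt), module ENI: the code determines the pair.
-/

namespace Pool.Agent.Helper20.FR

open ArithmeticFunction

/-- INJECTIVITY.  Two pairs with the same `T`, `V0`, the same parts on `V0` and the same exponents at
the first `L` steps have the same visited sets and the same parts on them.
PROOF by induction on L: the step at stage i is a function of the parts and of the visited set; when
the new number is not in V use `res_insert`, when it is in V (only possible for 0) nothing changes. -/
theorem enc_inj {a b a' b' : ℕ} {T V0 : Finset ℕ} (hT : ∀ p ∈ T, p.Prime) (L : ℕ)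
    (hA : res V0 a = res V0 a') (hB : res V0 b = res V0 b')
    (hca : ∀ i < L, a.factorization (step a b T V0 i) = a'.factorization (step a' b' T V0 i))
    (hcb : ∀ i < L, b.factorization (step a b T V0 i) = b'.factorization (step a' b' T V0 i)) :
    visited a b T V0 L = visited a' b' T V0 L ∧
      res (visited a b T V0 L) a = res (visited a' b' T V0 L) a' ∧
      res (visited a b T V0 L) b = res (visited a' b' T V0 L) b' := by
  induction L with
  | zero => exact ⟨rfl, hA, hB⟩
  | succ L ih =>
    obtain ⟨hv, h1, h2⟩ := ih (fun i hi => hca i (by omega)) (fun i hi => hcb i (by omega))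
    have hst : step a b T V0 L = step a' b' T V0 L := by
      unfold step
      rw [h1, h2, hv]
    have ea := hca L (Nat.lt_succ_self L)
    have eb := hcb L (Nat.lt_succ_self L)
    rw [visited_succ, visited_succ, ← hst, ← hv]
    rw [← hst] at ea eb
    rw [← hv] at h1 h2
    refine ⟨rfl, ?_, ?_⟩
    · by_cases hr : step a b T V0 L ∈ visited a b T V0 L
      · rw [Finset.insert_eq_of_mem hr]
        exact h1
      · rw [res_insert hr, res_insert hr, ea, h1]
    · by_cases hr : step a b T V0 L ∈ visited a b T V0 L
      · rw [Finset.insert_eq_of_mem hr]
        exact h2
      · rw [res_insert hr, res_insert hr, eb, h2]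

end Pool.Agent.Helper20.FR
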