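import Pool.Agent.Helper20.FR.Enc

/-!
Project FR (MP_649f63_nt), module ENS: the code is short.
-/

namespace Pool.Agent.Helper20.FR

open ArithmeticFunction

theorem encsum_visited_mono (a b : ℕ) (T V0 : Finset ℕ) {i j : ℕ} (hij : i ≤ j) :
    visited a b T V0 i ⊆ visited a b T V0 j := by
  induction j, hij using Nat.le_induction with
  | base => exact Finset.Subset.refl _
  | succ j _ ih =>
    rw [visited_succ]
    exact ih.trans (Finset.subset_insert _ _)

theorem encsum_step_mem (a b : ℕ) (T V0 : Finset ℕ) (i : ℕ) :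
    step a b T V0 i ∈ visited a b T V0 (i + 1) := by
  rw [visited_succ]
  exact Finset.mem_insert_self _ _

theorem encsum_step {a b : ℕ} {T V0 : Finset ℕ} (hT : ∀ p ∈ T, p.Prime) {i : ℕ}
    (h : step a b T V0 i ≠ 0) :
    step a b T V0 i ∉ visited a b T V0 i ∧ (step a b T V0 i).Prime := by
  rcases nxt_eq_zero_or (res (visited a b T V0 i) a) (res (visited a b T V0 i) b) T
    (visited a b T V0 i) hT with h0 | ⟨h1, h2, _⟩
  · exact absurd h0 h
  · exact ⟨h1, h2⟩

/-- THE CODE IS SHORT.  PROOF. Induction on L: `sum over i < L of (v(a) + v(b)) at step i` equals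
`sum over p in visited L \ V0 of (v_p(a)+v_p(b))` (a step equal to 0 contributes 0, otherwise it is a
new element).  So the product over these steps of `step^(...)` divides a b ; as the elements of
`visited L \ V0` which are primes exceed y, `(y+1)^(sum) <= prod over p in (supp a b) above y of
p^(v_p(a)+v_p(b)) <= a b`. -/
theorem enc_sum {a b y L : ℕ} {T : Finset ℕ} (h : Red a b) (hT : T ⊆ supp a b) :
    (y + 1) ^ (∑ i ∈ Finset.range L, (a.factorization (step a b T (Nat.primesLE y) i)
      + b.factorization (step a b T (Nat.primesLE y) i))) ≤ a * b := by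
  obtain ⟨ha, hb, -, -⟩ := h
  have ha' : a ≠ 0 := ha.ne'
  have hb' : b ≠ 0 := hb.ne'
  have hTp : ∀ p ∈ T, p.Prime := fun p hp => by
    have := hT hp
    unfold supp at this
    exact Nat.prime_of_mem_primeFactors this
  set s : ℕ → ℕ := fun i => step a b T (Nat.primesLE y) i with hs
  set f : ℕ → ℕ := fun p => a.factorization p + b.factorization p with hf
  have hfab : ∀ p, f p = (a * b).factorization p := by
    intro p
    rw [hf, Nat.factorization_mul ha' hb']
    rfl
  have hprime : ∀ i, f (s i) ≠ 0 → (s i).Prime := by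
    intro i hi
    rw [hfab] at hi
    by_contra hnp
    exact hi (Nat.factorization_eq_zero_of_not_prime _ hnp)
  have hne : ∀ i, f (s i) ≠ 0 → s i ≠ 0 := fun i hi => (hprime i hi).ne_zero
  have hgt : ∀ i, f (s i) ≠ 0 → y + 1 ≤ s i := by
    intro i hi
    by_contra hlt
    have hle : s i ≤ y := by omega
    have h1 := (encsum_step hTp (hne i hi)).1
    apply h1
    apply encsum_visited_mono a b T (Nat.primesLE y) (Nat.zero_le i)
    rw [visited_zero]
    exact Nat.mem_primesLE.2 ⟨hle, hprime i hi⟩
  have hinj : ∀ i j, f (s i) ≠ 0 → f (s j) ≠ 0 → s i = s j → i = j := by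
    have key : ∀ i j, f (s j) ≠ 0 → i < j → s i ≠ s j := by
      intro i j hj hij he
      have h1 := (encsum_step hTp (hne j hj)).1
      apply h1
      have h2 : s i ∈ visited a b T (Nat.primesLE y) j :=
        encsum_visited_mono a b T (Nat.primesLE y) hij (encsum_step_mem a b T (Nat.primesLE y) i)
      rw [he] at h2
      exact h2
    intro i j hi hj he
    rcases lt_trichotomy i j with h1 | h1 | h1
    · exact absurd he (key i j hj h1)
    · exact h1
    · exact absurd he.symm (key j i hi h1)
  set I := (Finset.range L).filter (fun i => f (s i) ≠ 0) with hI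
  have hsum : ∑ i ∈ Finset.range L, f (s i) = ∑ i ∈ I, f (s i) := by
    rw [hI, Finset.sum_filter_ne_zero]
  change (y + 1) ^ (∑ i ∈ Finset.range L, f (s i)) ≤ a * b
  rw [hsum, ← Finset.prod_pow_eq_pow_sum]
  have h1 : ∏ i ∈ I, (y + 1) ^ f (s i) ≤ ∏ i ∈ I, (s i) ^ f (s i) := by
    refine Finset.prod_le_prod' (fun i hi => ?_)
    exact Nat.pow_le_pow_left (hgt i (Finset.mem_filter.1 hi).2) _
  have h2 : ∏ i ∈ I, (s i) ^ f (s i) = ∏ p ∈ I.image s, p ^ f p := by
    rw [Finset.prod_image]
    intro i hi j hj he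
    exact hinj i j (Finset.mem_filter.1 hi).2 (Finset.mem_filter.1 hj).2 he
  have hsub : I.image s ⊆ (a * b).primeFactors := by
    intro p hp
    obtain ⟨i, hi, rfl⟩ := Finset.mem_image.1 hp
    have hi' := (Finset.mem_filter.1 hi).2
    rw [hfab] at hi'
    rw [← Nat.support_factorization]
    exact Finsupp.mem_support_iff.2 hi'
  have h3 : ∏ p ∈ I.image s, p ^ f p ≤ ∏ p ∈ (a * b).primeFactors, p ^ f p := by
    refine Finset.prod_le_prod_of_subset_of_one_le' hsub (fun p hp _ => ?_)
    exact Nat.one_le_pow _ _ (Nat.pos_of_mem_primeFactors hp)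
  have h4 : ∏ p ∈ (a * b).primeFactors, p ^ f p = a * b := by
    have := Nat.prod_factorization_pow_eq_self (n := a * b) (mul_ne_zero ha' hb')
    rw [Finsupp.prod, Nat.support_factorization] at this
    simp only [hfab]
    exact this
  exact (h1.trans (h2.le.trans h3)).trans h4.le

end Pool.Agent.Helper20.FR
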