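import Mathlib

/-!
Project FR (MP_649f63_nt), the smoothness parameter.
-/

namespace Pool.Agent.Helper20.FR

/-- the smoothness parameter attached to `x` -/
def yy (x : ℕ) : ℕ := Nat.log 2 x + 11

theorem lt_two_pow_yy (x : ℕ) : x < 2 ^ yy x := by
  unfold yy
  exact (Nat.lt_pow_succ_log_self (by norm_num) x).trans_le
    (Nat.pow_le_pow_right (by norm_num) (by omega))

end Pool.Agent.Helper20.FR
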