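import Pool.Agent.Helper20.FR.Smo
import Pool.Agent.Helper20.FR.Yy

/-!
Project FR (MP_649f63_nt), module EP1.
-/

namespace Pool.Agent.Helper20.FR

private lemma eps1_pi (δ : ℝ) (hδ : 0 < δ) :
    ∃ B : ℝ, 0 ≤ B ∧ ∀ y : ℕ, (Nat.primeCounting y : ℝ) ≤ δ * y + B := by
  have h1 := Chebyshev.eventually_primeCounting_le (ε := 1) one_pos
  have h2 : ∀ᶠ x : ℝ in Filter.atTop, (Real.log 4 + 1) / Real.log x ≤ δ := by
    have h3 : Filter.Tendsto (fun x : ℝ => (Real.log 4 + 1) / Real.log x) Filter.atTop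
        (nhds 0) := Filter.Tendsto.div_atTop tendsto_const_nhds Real.tendsto_log_atTop
    exact h3.eventually (eventually_le_nhds hδ)
  obtain ⟨X, hX⟩ := Filter.eventually_atTop.1 ((h1.and h2).and (Filter.eventually_ge_atTop 1))
  obtain ⟨Y0, hY0⟩ := exists_nat_ge X
  refine ⟨Nat.primeCounting Y0, Nat.cast_nonneg _, fun y => ?_⟩
  rcases le_total Y0 y with hy | hy
  · have hXy : X ≤ (y : ℝ) := hY0.trans (by exact_mod_cast hy)
    obtain ⟨⟨h3, h4⟩, h5⟩ := hX y hXy
    rw [Nat.floor_natCast] at h3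
    have h6 : (Real.log 4 + 1) * (y : ℝ) / Real.log y = (Real.log 4 + 1) / Real.log y * y := by
      ring
    rw [h6] at h3
    have h7 := mul_le_mul_of_nonneg_right h4 (Nat.cast_nonneg (α := ℝ) y)
    have h8 : (0 : ℝ) ≤ Nat.primeCounting Y0 := Nat.cast_nonneg _
    linarith
  · have h3 : (Nat.primeCounting y : ℝ) ≤ Nat.primeCounting Y0 := by
      exact_mod_cast Nat.monotone_primeCounting hy
    have h4 : 0 ≤ δ * (y : ℝ) := by positivity
    linarith

/-- number of `yy x`-smooth numbers.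
PROOF. `pi(y) <= delta y` for `y >= y1(delta)` (from `Chebyshev.eventually_primeCounting_le`, evaluated at
natural y: `pi(y) <= (log 4 + 1) y / log y`).  Use `smooth_count` with `z = 2^(-eps/2)`:
the number is at most `z^(-log2 x) (1-z)^(-pi(y))`, where `z^(-Nat.log 2 x) <= x^(eps/2)` and
`(1-z)^(-pi(y)) = exp(pi(y) L)`, `L = log(1/(1-z))`, `<= exp(delta L y) <= exp(delta L (log x/log 2 + 11))`
for large x, with `delta` chosen so that `delta L / log 2 <= eps/2`.  For the finitely many smaller x the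
number is at most x (bounded), absorbed in C. -/
theorem smooth_eps (ε : ℝ) (hε : 0 < ε) :
    ∃ C : ℝ, 0 < C ∧ ∀ x : ℕ, 1 ≤ x → ((smoothUpTo x (yy x)).ncard : ℝ) ≤ C * (x : ℝ) ^ ε := by
  have hl2 : 0 < Real.log 2 := Real.log_pos (by norm_num)
  set z : ℝ := Real.exp (-(ε / 2 * Real.log 2)) with hz
  have hz0 : 0 < z := Real.exp_pos _
  have hz1 : z < 1 := by
    rw [hz, Real.exp_lt_one_iff]
    have : 0 < ε / 2 * Real.log 2 := by positivity
    linarith
  set L : ℝ := -Real.log (1 - z) with hL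
  have hL0 : 0 < L := by
    have : Real.log (1 - z) < 0 := Real.log_neg (by linarith) (by linarith)
    linarith
  obtain ⟨B, hB0, hB⟩ := eps1_pi (ε / 2 * Real.log 2 / L) (by positivity)
  refine ⟨Real.exp (ε / 2 * Real.log 2 * 11 + L * B), Real.exp_pos _, ?_⟩
  intro x hx
  have hx0 : (0 : ℝ) < x := by exact_mod_cast hx
  have hc := (smooth_count x (yy x) z hz0 hz1).2
  have hzp : z ^ Nat.log 2 x = Real.exp (-(ε / 2 * Real.log 2 * Nat.log 2 x)) := by
    rw [hz, ← Real.exp_nat_mul]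
    congr 1; ring
  have h1z : (1 - z) ^ Nat.primeCounting (yy x) = Real.exp (-(L * Nat.primeCounting (yy x))) := by
    have h1 : 1 - z = Real.exp (-L) := by
      rw [hL, neg_neg, Real.exp_log (by linarith)]
    rw [h1, ← Real.exp_nat_mul]
    congr 1; ring
  rw [hzp, h1z, ← Real.exp_add] at hc
  have h2 : ((smoothUpTo x (yy x)).ncard : ℝ) ≤
      Real.exp (ε / 2 * Real.log 2 * Nat.log 2 x + L * Nat.primeCounting (yy x)) := by
    have h3 : Real.exp (-(ε / 2 * Real.log 2 * Nat.log 2 x) + -(L * Nat.primeCounting (yy x))) =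
        (Real.exp (ε / 2 * Real.log 2 * Nat.log 2 x + L * Nat.primeCounting (yy x)))⁻¹ := by
      rw [← Real.exp_neg]
      congr 1; ring
    rw [h3, ← div_eq_mul_inv, div_le_one (Real.exp_pos _)] at hc
    exact hc
  refine h2.trans ?_
  rw [Real.rpow_def_of_pos hx0, ← Real.exp_add, Real.exp_le_exp]
  have h4 := hB (yy x)
  have h5 : L * Nat.primeCounting (yy x) ≤ ε / 2 * Real.log 2 * (yy x : ℝ) + L * B := by
    have := mul_le_mul_of_nonneg_left h4 hL0.le
    refine this.trans (le_of_eq ?_)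
    field_simp
  have h6 : ((yy x : ℕ) : ℝ) = Nat.log 2 x + 11 := by
    unfold yy; push_cast; ring
  have h7 : Real.log 2 * (Nat.log 2 x : ℝ) ≤ Real.log x := by
    have h8 : (2 : ℝ) ^ Nat.log 2 x ≤ x := by
      exact_mod_cast Nat.pow_log_le_self 2 (by omega : x ≠ 0)
    have h9 := Real.log_le_log (by positivity) h8
    rw [Real.log_pow] at h9
    linarith
  rw [h6] at h5
  nlinarith

end Pool.Agent.Helper20.FR
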