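import Pool.Agent.Helper20.FR.Yy

/-!
Project FR (MP_649f63_nt), module EP2.
-/

namespace Pool.Agent.Helper20.FR

/-- size of the code.  PROOF. `Nat.log (y+1) (x^6) <= 6 log x / log (y+1)`, etc., so the left side is at
most `exp (14 log 2 * log x / log (y+1))`, and `14 log 2 / log (yy x + 1) <= eps` for large x; the finitely many
smaller x are absorbed in C. -/
theorem code_eps (ε : ℝ) (hε : 0 < ε) :
    ∃ C : ℝ, 0 < C ∧ ∀ x : ℕ, 1 ≤ x →
      (2 : ℝ) ^ (2 * Nat.log (yy x + 1) (x ^ 6) + Nat.log (yy x + 1) (x ^ 2)) ≤ C * (x : ℝ) ^ ε := by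
  classical
  set E : ℕ → ℕ := fun x => 2 * Nat.log (yy x + 1) (x ^ 6) + Nat.log (yy x + 1) (x ^ 2) with hE
  -- the base tends to infinity
  obtain ⟨T, hT⟩ := exists_nat_gt (Real.exp (14 * Real.log 2 / ε))
  have hmain : ∀ x : ℕ, 2 ^ T ≤ x → (2 : ℝ) ^ E x ≤ (x : ℝ) ^ ε := by
    intro x hx
    have hx1 : 1 ≤ x := (Nat.one_le_two_pow).trans hx
    have hx0 : x ≠ 0 := by omega
    have hT' : T ≤ Nat.log 2 x := Nat.le_log_of_pow_le (by norm_num) hx
    have hB : Real.exp (14 * Real.log 2 / ε) < ((yy x + 1 : ℕ) : ℝ) := by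
      refine hT.trans_le ?_
      unfold yy
      exact_mod_cast (by omega : T ≤ Nat.log 2 x + 11 + 1)
    have hB1 : (1 : ℝ) < ((yy x + 1 : ℕ) : ℝ) := by
      unfold yy
      exact_mod_cast (by omega : 1 < Nat.log 2 x + 11 + 1)
    have hlogB : 0 < Real.log ((yy x + 1 : ℕ) : ℝ) := Real.log_pos hB1
    have hlogB2 : 14 * Real.log 2 / ε ≤ Real.log ((yy x + 1 : ℕ) : ℝ) := by
      rw [Real.le_log_iff_exp_le (by linarith)]
      exact hB.le
    have hlx : 0 ≤ Real.log x := Real.log_natCast_nonneg x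
    have h6 : (Nat.log (yy x + 1) (x ^ 6) : ℝ) ≤ 6 * Real.log x / Real.log ((yy x + 1 : ℕ) : ℝ) := by
      refine (Real.natLog_le_logb (x ^ 6) (yy x + 1)).trans (le_of_eq ?_)
      rw [Real.logb, Nat.cast_pow, Real.log_pow]
      norm_num
    have h2 : (Nat.log (yy x + 1) (x ^ 2) : ℝ) ≤ 2 * Real.log x / Real.log ((yy x + 1 : ℕ) : ℝ) := by
      refine (Real.natLog_le_logb (x ^ 2) (yy x + 1)).trans (le_of_eq ?_)
      rw [Real.logb, Nat.cast_pow, Real.log_pow]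
      norm_num
    have hEle : (E x : ℝ) ≤ 14 * Real.log x / Real.log ((yy x + 1 : ℕ) : ℝ) := by
      have e0 : (E x : ℝ) = 2 * (Nat.log (yy x + 1) (x ^ 6) : ℝ) + (Nat.log (yy x + 1) (x ^ 2) : ℝ) := by
        simp only [hE, Nat.cast_add, Nat.cast_mul, Nat.cast_ofNat]
      rw [e0]
      have e : 14 * Real.log x / Real.log ((yy x + 1 : ℕ) : ℝ)
          = 2 * (6 * Real.log x / Real.log ((yy x + 1 : ℕ) : ℝ))
            + 2 * Real.log x / Real.log ((yy x + 1 : ℕ) : ℝ) := by ring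
      rw [e]
      linarith
    have hl2 : 0 < Real.log 2 := Real.log_pos (by norm_num)
    have h3 : (E x : ℝ) * Real.log 2 ≤ ε * Real.log x := by
      have h4 : (E x : ℝ) * Real.log 2 ≤
          14 * Real.log x / Real.log ((yy x + 1 : ℕ) : ℝ) * Real.log 2 :=
        mul_le_mul_of_nonneg_right hEle hl2.le
      refine h4.trans ?_
      rw [div_mul_eq_mul_div, div_le_iff₀ hlogB]
      have h5 : 14 * Real.log 2 ≤ ε * Real.log ((yy x + 1 : ℕ) : ℝ) := by
        rw [div_le_iff₀ hε] at hlogB2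
        linarith
      nlinarith
    have hx0' : (0 : ℝ) < x := by exact_mod_cast hx1
    rw [← Real.rpow_natCast, Real.rpow_def_of_pos (by norm_num : (0 : ℝ) < 2),
      Real.rpow_def_of_pos hx0']
    refine Real.exp_le_exp.mpr ?_
    linarith
  refine ⟨1 + ∑ x ∈ Finset.range (2 ^ T), (2 : ℝ) ^ E x, by positivity, ?_⟩
  intro x hx
  have hx1 : (1 : ℝ) ≤ x := by exact_mod_cast hx
  have hxe : 1 ≤ (x : ℝ) ^ ε := Real.one_le_rpow hx1 hε.le
  have hsum : 0 ≤ ∑ x ∈ Finset.range (2 ^ T), (2 : ℝ) ^ E x := by positivity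
  rcases Nat.lt_or_ge x (2 ^ T) with h | h
  · have h1 : (2 : ℝ) ^ E x ≤ ∑ x ∈ Finset.range (2 ^ T), (2 : ℝ) ^ E x :=
      Finset.single_le_sum (f := fun x => (2 : ℝ) ^ E x) (fun i _ => by positivity)
        (Finset.mem_range.mpr h)
    calc (2 : ℝ) ^ E x ≤ (1 + ∑ x ∈ Finset.range (2 ^ T), (2 : ℝ) ^ E x) * 1 := by linarith
      _ ≤ _ := mul_le_mul_of_nonneg_left hxe (by linarith)
  · calc (2 : ℝ) ^ E x ≤ 1 * (x : ℝ) ^ ε := by rw [one_mul]; exact hmain x h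
      _ ≤ _ := mul_le_mul_of_nonneg_right (by linarith) (by linarith)

end Pool.Agent.Helper20.FR
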