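import Mathlib

/-!
Project FR (MP_649f63_nt), module LEM: four short cycles of the relation (divides sigma of a power)
which do not exist among primes above 10.  Pure divisibility, independent of the other modules.
-/

namespace Pool.Agent.Helper20.FR

/-- an odd divisor of an even number: the quotient is even -/
theorem lem_even {a b : ℕ} (ha : a % 2 = 1) (hb : (b + 1) % 2 = 0) (h : a ∣ b + 1) :
    ∃ k, 1 ≤ k ∧ b + 1 = 2 * (a * k) := by
  have hc : Nat.Coprime 2 a := by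
    rw [Nat.coprime_two_left, Nat.odd_iff]; exact ha
  have h2 : 2 * a ∣ b + 1 := Nat.Coprime.mul_dvd_of_dvd_of_dvd hc (Nat.dvd_of_mod_eq_zero hb) h
  obtain ⟨k, hk⟩ := h2
  refine ⟨k, ?_, by rw [hk, mul_assoc]⟩
  rcases Nat.eq_zero_or_pos k with h0 | h0
  · subst h0; omega
  · exact h0

theorem lem_odd {p : ℕ} (hp : p.Prime) (h : 10 < p) : p % 2 = 1 := by
  rcases hp.eq_two_or_odd with h1 | h1
  · omega
  · exact h1

/-- `r | p+1` and `p | r+1`.  PROOF. p is odd and r is odd, so `p + 1 = k r` with k even (if k were odd,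
`k r` would be odd), `k >= 2`, hence `2 r <= p + 1`; symmetrically `2 p <= r + 1`; add. -/
theorem cyc_one_one {p r : ℕ} (hp : p.Prime) (hr : r.Prime) (hp10 : 10 < p) (hr10 : 10 < r)
    (h1 : r ∣ p + 1) (h2 : p ∣ r + 1) : False := by
  obtain ⟨k, hk, e1⟩ := lem_even (lem_odd hr hr10) (by have := lem_odd hp hp10; omega) h1
  obtain ⟨l, hl, e2⟩ := lem_even (lem_odd hp hp10) (by have := lem_odd hr hr10; omega) h2
  have h3 : r ≤ r * k := Nat.le_mul_of_pos_right r hk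
  have h4 : p ≤ p * l := Nat.le_mul_of_pos_right p hl
  omega

/-- `d | p+1` and `p | d^2+d+1`.  PROOF. `p + 1 = k d`, and k is even because p, d are odd primes, so
`k >= 2`.  Put `d^2+d+1 = m p`.  Modulo d: `1 = m p = - m`, so `m + 1 = j d` with `j >= 1`, i.e.
`m >= d - 1`.  Then `d^2+d+1 = m p >= (d-1)(2d-1) = 2d^2 - 3d + 1`, i.e. `d^2 <= 4 d`, contradiction
with `10 < d`. -/
theorem cyc_two_one {d p : ℕ} (hd : d.Prime) (hp : p.Prime) (hd10 : 10 < d) (hp10 : 10 < p)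
    (h1 : d ∣ p + 1) (h2 : p ∣ d ^ 2 + d + 1) : False := by
  obtain ⟨k, hk, e1⟩ := lem_even (lem_odd hd hd10) (by have := lem_odd hp hp10; omega) h1
  obtain ⟨m, e2⟩ := h2
  have h3 : d ≤ d * k := Nat.le_mul_of_pos_right d hk
  have h4 : d ∣ m + 1 := by
    have h5 : (d : ℤ) ∣ (m : ℤ) + 1 := by
      refine ⟨2 * m * k - d - 1, ?_⟩
      have e1' : (p : ℤ) + 1 = 2 * (d * k) := by exact_mod_cast e1
      have e2' : (d : ℤ) ^ 2 + d + 1 = p * m := by exact_mod_cast e2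
      linear_combination (m : ℤ) * e1' + e2'
    exact_mod_cast h5
  have h6 : d ≤ m + 1 := Nat.le_of_dvd (Nat.succ_pos m) h4
  have h7 : 2 * d ≤ p + 1 := by omega
  zify at *
  nlinarith

/-- `d | p+1`, `p | r+1`, `r | d^2+d+1`.  PROOF. As above `p + 1 = k d` with k even, `k >= 2`, and
`r + 1 = l p` with `l >= 2` even, so `r = l k d - l - 1`.  Put `d^2+d+1 = m r`.  Modulo d:
`1 = - m (l+1)`, so `d | m (l+1) + 1` and `m (l+1) >= d - 1`.  On the other hand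
`r = l k d - (l+1) >= 2 l d - (l+1)` and `2 l >= (4/3)(l+1)` (because `l >= 2`), so
`3 r >= (l+1)(4 d - 3)`, hence `3 (d^2+d+1) = 3 m r >= m (l+1)(4d-3) >= (d-1)(4d-3)`, i.e.
`d^2 <= 10 d`, contradiction with `10 < d`. -/
theorem cyc_two_one_one {d p r : ℕ} (hd : d.Prime) (hp : p.Prime) (hr : r.Prime) (hd10 : 10 < d)
    (hp10 : 10 < p) (hr10 : 10 < r)
    (h1 : d ∣ p + 1) (h2 : p ∣ r + 1) (h3 : r ∣ d ^ 2 + d + 1) : False := by
  obtain ⟨k, hk, e1⟩ := lem_even (lem_odd hd hd10) (by have := lem_odd hp hp10; omega) h1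
  obtain ⟨l, hl, e2⟩ := lem_even (lem_odd hp hp10) (by have := lem_odd hr hr10; omega) h2
  obtain ⟨m, e3⟩ := h3
  have e1' : (p : ℤ) + 1 = 2 * (d * k) := by exact_mod_cast e1
  have e2' : (r : ℤ) + 1 = 2 * (p * l) := by exact_mod_cast e2
  have e3' : (d : ℤ) ^ 2 + d + 1 = r * m := by exact_mod_cast e3
  have er : (r : ℤ) = 4 * l * k * d - (2 * l + 1) := by
    linear_combination e2' + 2 * (l : ℤ) * e1'
  have h4 : d ∣ m * (2 * l + 1) + 1 := by
    have h5 : (d : ℤ) ∣ (m : ℤ) * (2 * l + 1) + 1 := by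
      refine ⟨4 * m * l * k - d - 1, ?_⟩
      linear_combination (m : ℤ) * er + e3'
    exact_mod_cast h5
  have h6 : d ≤ m * (2 * l + 1) + 1 := Nat.le_of_dvd (Nat.succ_pos _) h4
  have h6' : (d : ℤ) ≤ m * (2 * l + 1) + 1 := by exact_mod_cast h6
  have hk' : (1 : ℤ) ≤ k := by exact_mod_cast hk
  have hl' : (1 : ℤ) ≤ l := by exact_mod_cast hl
  have hd' : (10 : ℤ) < d := by exact_mod_cast hd10
  have hm' : (0 : ℤ) ≤ m := by positivity
  have h7 : ((2 * l + 1 : ℤ)) * (4 * d - 3) ≤ 3 * r := by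
    have h8 : (l : ℤ) * d ≤ l * d * k := by
      nlinarith [mul_nonneg (mul_nonneg (by linarith : (0 : ℤ) ≤ l) (by linarith : (0 : ℤ) ≤ d))
        (by linarith : (0 : ℤ) ≤ k - 1)]
    nlinarith [mul_nonneg (by linarith : (0 : ℤ) ≤ l - 1) (by linarith : (0 : ℤ) ≤ d)]
  have h9 : (m : ℤ) * ((2 * l + 1) * (4 * d - 3)) ≤ m * (3 * r) :=
    mul_le_mul_of_nonneg_left h7 hm'
  have h10 : ((d : ℤ) - 1) * (4 * d - 3) ≤ (m * (2 * l + 1)) * (4 * d - 3) :=
    mul_le_mul_of_nonneg_right (by linarith) (by linarith)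
  nlinarith

/-- `d^2 | p+1` and `p | d^3+d^2+d+1 = (d+1)(d^2+1)`.  PROOF. `p + 1 = k d^2` with `k >= 1`; k is even
(p, d odd), so `p >= 2 d^2 - 1 > d^2 + 1`; p divides `d+1` or `d^2+1`, contradiction by size. -/
theorem cyc_three_one {d p : ℕ} (hd : d.Prime) (hp : p.Prime) (hd10 : 10 < d) (hp10 : 10 < p)
    (h1 : d ^ 2 ∣ p + 1) (h2 : p ∣ d ^ 3 + d ^ 2 + d + 1) : False := by
  have hdo := lem_odd hd hd10
  have hpo := lem_odd hp hp10
  obtain ⟨k, hk, e1⟩ := lem_even (a := d ^ 2) (by rw [Nat.pow_mod, hdo]) (by omega) h1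
  have h3 : d ^ 2 ≤ d ^ 2 * k := Nat.le_mul_of_pos_right _ hk
  have h4 : p ∣ (d + 1) * (d ^ 2 + 1) := by
    have : (d + 1) * (d ^ 2 + 1) = d ^ 3 + d ^ 2 + d + 1 := by ring
    rw [this]; exact h2
  have h5 : d + 1 ≤ d ^ 2 + 1 := by nlinarith
  have h6 : p ≤ d ^ 2 + 1 := by
    rcases (hp.dvd_mul).1 h4 with h7 | h7
    · exact (Nat.le_of_dvd (Nat.succ_pos _) h7).trans h5
    · exact Nat.le_of_dvd (Nat.succ_pos _) h7
  nlinarith

end Pool.Agent.Helper20.FR
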