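import Pool.Agent.Helper20.FR.Red
import Pool.Agent.Helper20.FR.Dec2

/-!
Project FR (MP_649f63_nt), module PSU: the tail of the sum of 1/b over reduced solutions.
-/

namespace Pool.Agent.Helper20.FR

/-- the weight of a reduced solution in the asymptotic formula -/
noncomputable def wt (p : ℕ × ℕ) : ℝ :=
  open Classical in
  if Red p.1 p.2 ∧ p.1 < p.2 then
    (Nat.totient (p.1 * p.2) : ℝ) / (p.1 * p.2 : ℕ) / p.2
  else 0

theorem wt_nonneg (p : ℕ × ℕ) : 0 ≤ wt p := by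
  unfold wt
  split_ifs
  · positivity
  · exact le_rfl

theorem wt_eq_zero {p : ℕ × ℕ} (h : ¬ (Red p.1 p.2 ∧ p.1 < p.2)) : wt p = 0 := by
  unfold wt
  rw [if_neg h]

theorem wt_le (p : ℕ × ℕ) : wt p ≤ 1 / (p.2 : ℝ) := by
  unfold wt
  split_ifs
  · apply div_le_div_of_nonneg_right _ (Nat.cast_nonneg _)
    apply div_le_one_of_le₀ _ (Nat.cast_nonneg _)
    exact_mod_cast Nat.totient_le _
  · positivity

theorem block_sum_le {ε C : ℝ} (hC : ∀ x : ℕ, 1 ≤ x → ((redUpTo x).ncard : ℝ) ≤ C * (x : ℝ) ^ ((1 : ℝ) / 3 + ε))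
    (u : Finset (ℕ × ℕ)) (k : ℕ) (hu : ∀ p ∈ u, Nat.log 2 p.2 = k) :
    ∑ p ∈ u, wt p ≤ C * ((2 : ℝ) ^ (k + 1)) ^ ((1 : ℝ) / 3 + ε) / 2 ^ k := by
  classical
  have h1 : ∑ p ∈ u, wt p = ∑ p ∈ u.filter (fun p => Red p.1 p.2 ∧ p.1 < p.2), wt p := by
    rw [Finset.sum_filter_of_ne]
    intro p _ hne
    by_contra hcon
    exact hne (wt_eq_zero hcon)
  rw [h1]
  have h2 : ∑ p ∈ u.filter (fun p => Red p.1 p.2 ∧ p.1 < p.2), wt p ≤
      ∑ p ∈ u.filter (fun p => Red p.1 p.2 ∧ p.1 < p.2), (1 : ℝ) / 2 ^ k := by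
    apply Finset.sum_le_sum
    intro p hp
    rw [Finset.mem_filter] at hp
    refine (wt_le p).trans ?_
    have hpos : p.2 ≠ 0 := by have := hp.2.1.2.1; omega
    have := Nat.pow_log_le_self 2 hpos
    rw [hu p hp.1] at this
    have h3 : ((2 : ℝ) ^ k) ≤ (p.2 : ℝ) := by exact_mod_cast this
    exact one_div_le_one_div_of_le (by positivity) h3
  refine h2.trans ?_
  rw [Finset.sum_const, nsmul_eq_mul]
  have h4 : ((u.filter (fun p => Red p.1 p.2 ∧ p.1 < p.2)).card : ℝ) ≤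
      ((redUpTo (2 ^ (k + 1))).ncard : ℝ) := by
    norm_cast
    rw [← Set.ncard_coe_finset]
    apply Set.ncard_le_ncard _ (redUpTo_finite _)
    intro p hp
    rw [Finset.mem_coe, Finset.mem_filter] at hp
    have h5 : p.2 < 2 ^ (k + 1) := by
      have := Nat.lt_pow_succ_log_self (b := 2) (by norm_num) p.2
      rwa [hu p hp.1] at this
    exact ⟨hp.2.1, by omega, h5.le⟩
  have h6 := hC (2 ^ (k + 1)) Nat.one_le_two_pow
  have h7 : (((2 ^ (k + 1) : ℕ)) : ℝ) = (2 : ℝ) ^ (k + 1) := by push_cast; rfl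
  rw [h7] at h6
  rw [mul_one_div]
  exact div_le_div_of_nonneg_right (h4.trans h6) (by positivity)

theorem block_le {ε C : ℝ} (hε1 : ε ≤ 1 / 3) (hC0 : 0 < C) (k : ℕ) :
    C * ((2 : ℝ) ^ (k + 1)) ^ ((1 : ℝ) / 3 + ε) / 2 ^ k ≤
      2 * C * ((2 : ℝ) ^ (-(2 : ℝ) / 3 + ε)) ^ k := by
  have h1 : ((2 : ℝ) ^ (k + 1)) ^ ((1 : ℝ) / 3 + ε) =
      (2 : ℝ) ^ ((1 : ℝ) / 3 + ε) * ((2 : ℝ) ^ k) ^ ((1 : ℝ) / 3 + ε) := by
    rw [pow_succ, mul_comm, Real.mul_rpow (by norm_num) (by positivity)]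
  have h2 : (2 : ℝ) ^ ((1 : ℝ) / 3 + ε) ≤ 2 := by
    calc (2 : ℝ) ^ ((1 : ℝ) / 3 + ε) ≤ (2 : ℝ) ^ (1 : ℝ) :=
        Real.rpow_le_rpow_of_exponent_le (by norm_num) (by linarith)
      _ = 2 := Real.rpow_one 2
  have h3 : ((2 : ℝ) ^ k) ^ ((1 : ℝ) / 3 + ε) / 2 ^ k = ((2 : ℝ) ^ (-(2 : ℝ) / 3 + ε)) ^ k := by
    rw [← Real.rpow_natCast 2 k, ← Real.rpow_mul (by norm_num), ← Real.rpow_sub (by norm_num),
      ← Real.rpow_natCast (2 ^ (-(2 : ℝ) / 3 + ε)) k, ← Real.rpow_mul (by norm_num)]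
    congr 1
    ring
  rw [h1, ← h3]
  have h4 : 0 ≤ ((2 : ℝ) ^ k) ^ ((1 : ℝ) / 3 + ε) / 2 ^ k := by positivity
  calc C * ((2 : ℝ) ^ ((1 : ℝ) / 3 + ε) * ((2 : ℝ) ^ k) ^ ((1 : ℝ) / 3 + ε)) / 2 ^ k
      = (2 : ℝ) ^ ((1 : ℝ) / 3 + ε) * (C * (((2 : ℝ) ^ k) ^ ((1 : ℝ) / 3 + ε) / 2 ^ k)) := by ring
    _ ≤ 2 * (C * (((2 : ℝ) ^ k) ^ ((1 : ℝ) / 3 + ε) / 2 ^ k)) :=
        mul_le_mul_of_nonneg_right h2 (by positivity)
    _ = 2 * C * (((2 : ℝ) ^ k) ^ ((1 : ℝ) / 3 + ε) / 2 ^ k) := by ring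

/-- the ratio -/
theorem ratio_lt {ε : ℝ} (hε1 : ε ≤ 1 / 3) : (2 : ℝ) ^ (-(2 : ℝ) / 3 + ε) < 1 :=
  Real.rpow_lt_one_of_one_lt_of_neg (by norm_num) (by linarith)

theorem finsum_bound (ε : ℝ) (hε : 0 < ε) (hε1 : ε ≤ 1 / 3) :
    ∃ C : ℝ, 0 < C ∧ ∀ x : ℕ, 1 ≤ x → ∀ u : Finset (ℕ × ℕ),
      ∑ p ∈ u, wt p ≤ (∑ p ∈ redLt x, wt p) + C * (x : ℝ) ^ (-(2 : ℝ) / 3 + ε) := by
  classical
  obtain ⟨C, hC0, hC⟩ := red_count ε hε
  set r : ℝ := (2 : ℝ) ^ (-(2 : ℝ) / 3 + ε) with hr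
  have hr0 : 0 < r := by positivity
  have hr1 : r < 1 := ratio_lt hε1
  refine ⟨4 * C / (1 - r), by have : 0 < 1 - r := by linarith
                              positivity, ?_⟩
  intro x hx u
  -- split
  have hsplit : ∑ p ∈ u, wt p ≤ (∑ p ∈ redLt x, wt p) + ∑ p ∈ u.filter (fun p => x < p.2), wt p := by
    rw [← Finset.sum_filter_add_sum_filter_not u (fun p => x < p.2), add_comm]
    apply add_le_add_left
    have this : ∑ p ∈ u.filter (fun p => ¬ x < p.2), wt p =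
        ∑ p ∈ (u.filter (fun p => ¬ x < p.2)).filter (fun p => Red p.1 p.2 ∧ p.1 < p.2), wt p := by
      refine (Finset.sum_filter_of_ne ?_).symm
      intro p _ hne
      by_contra hcon
      exact hne (wt_eq_zero hcon)
    rw [this]
    apply Finset.sum_le_sum_of_subset_of_nonneg
    · intro p hp
      rw [Finset.mem_filter, Finset.mem_filter] at hp
      unfold redLt
      rw [Finset.mem_filter, Finset.mem_product, Finset.mem_range, Finset.mem_range]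
      refine ⟨⟨?_, ?_⟩, hp.2⟩
      · have := hp.1.2; have := hp.2.2; omega
      · have := hp.1.2; omega
    · intro p _ _
      exact wt_nonneg p
  refine hsplit.trans ?_
  apply add_le_add_right
  -- the tail
  set v := u.filter (fun p => x < p.2) with hv
  set k0 := Nat.log 2 x with hk0
  obtain ⟨K, hK⟩ : ∃ K : ℕ, ∀ p ∈ v, Nat.log 2 p.2 < K := by
    refine ⟨(v.sup fun p => Nat.log 2 p.2) + 1, fun p hp => ?_⟩
    exact Nat.lt_succ_of_le (Finset.le_sup (f := fun p : ℕ × ℕ => Nat.log 2 p.2) hp)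
  have hmaps : ∀ p ∈ v, Nat.log 2 p.2 ∈ Finset.Ico k0 (k0 + K) := by
    intro p hp
    rw [Finset.mem_Ico]
    refine ⟨?_, ?_⟩
    · apply Nat.log_mono_right
      rw [hv, Finset.mem_filter] at hp
      exact hp.2.le
    · have := hK p hp; omega
  rw [← Finset.sum_fiberwise_of_maps_to hmaps]
  have hb : ∀ k ∈ Finset.Ico k0 (k0 + K), ∑ p ∈ v.filter (fun p => Nat.log 2 p.2 = k), wt p ≤
      2 * C * r ^ k := by
    intro k _
    refine (block_sum_le hC _ k ?_).trans (block_le hε1 hC0 k)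
    intro p hp
    exact (Finset.mem_filter.mp hp).2
  refine (Finset.sum_le_sum hb).trans ?_
  rw [← Finset.mul_sum, Finset.sum_Ico_eq_sum_range]
  have hg : ∑ i ∈ Finset.range (k0 + K - k0), r ^ (k0 + i) ≤ r ^ k0 / (1 - r) := by
    have h1r : 0 < 1 - r := by linarith
    have : ∀ i, r ^ (k0 + i) = r ^ k0 * r ^ i := fun i => pow_add r k0 i
    rw [Finset.sum_congr rfl (fun i _ => this i), ← Finset.mul_sum, div_eq_mul_inv]
    apply mul_le_mul_of_nonneg_left _ (by positivity)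
    rw [← tsum_geometric_of_lt_one hr0.le hr1]
    exact (summable_geometric_of_lt_one hr0.le hr1).sum_le_tsum _ (fun i _ => by positivity)
  have hpow : r ^ k0 ≤ 2 * (x : ℝ) ^ (-(2 : ℝ) / 3 + ε) := by
    have hx0 : (0 : ℝ) < x := by exact_mod_cast hx
    have h1 : r ^ k0 = ((2 : ℝ) ^ k0) ^ (-(2 : ℝ) / 3 + ε) := by
      rw [hr, ← Real.rpow_natCast (2 ^ (-(2 : ℝ) / 3 + ε)) k0, ← Real.rpow_mul (by norm_num),
        ← Real.rpow_natCast 2 k0, ← Real.rpow_mul (by norm_num), mul_comm]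
    have h2 : (x : ℝ) / 2 ≤ (2 : ℝ) ^ k0 := by
      have := Nat.lt_pow_succ_log_self (b := 2) (by norm_num) x
      rw [← hk0] at this
      have h3 : (x : ℝ) < (2 : ℝ) ^ (k0 + 1) := by exact_mod_cast this
      rw [pow_succ] at h3
      linarith
    rw [h1]
    calc ((2 : ℝ) ^ k0) ^ (-(2 : ℝ) / 3 + ε) ≤ ((x : ℝ) / 2) ^ (-(2 : ℝ) / 3 + ε) :=
          Real.rpow_le_rpow_of_nonpos (by positivity) h2 (by linarith)
      _ = (x : ℝ) ^ (-(2 : ℝ) / 3 + ε) * (2 : ℝ) ^ ((2 : ℝ) / 3 - ε) := by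
          rw [Real.div_rpow hx0.le (by norm_num), div_eq_mul_inv, ← Real.rpow_neg (by norm_num)]
          congr 2
          ring
      _ ≤ (x : ℝ) ^ (-(2 : ℝ) / 3 + ε) * 2 := by
          apply mul_le_mul_of_nonneg_left _ (by positivity)
          calc (2 : ℝ) ^ ((2 : ℝ) / 3 - ε) ≤ (2 : ℝ) ^ (1 : ℝ) :=
              Real.rpow_le_rpow_of_exponent_le (by norm_num) (by linarith)
            _ = 2 := Real.rpow_one 2
      _ = 2 * (x : ℝ) ^ (-(2 : ℝ) / 3 + ε) := by ring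
  have h1r : 0 < 1 - r := by linarith
  calc 2 * C * ∑ i ∈ Finset.range (k0 + K - k0), r ^ (k0 + i)
      ≤ 2 * C * (r ^ k0 / (1 - r)) := mul_le_mul_of_nonneg_left hg (by positivity)
    _ ≤ 2 * C * (2 * (x : ℝ) ^ (-(2 : ℝ) / 3 + ε) / (1 - r)) := by
        apply mul_le_mul_of_nonneg_left _ (by positivity)
        exact div_le_div_of_nonneg_right hpow h1r.le
    _ = 4 * C / (1 - r) * (x : ℝ) ^ (-(2 : ℝ) / 3 + ε) := by ring

/-- PROOF. `wt p <= 1 / p.2`.  By dyadic blocks `2^k <= b < 2^(k+1)` and `red_count` (at `2^(k+1)`), the sum of `wt`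
over the block is at most `C 2^((k+1)(1/3+eps)) / 2^k`, summable geometric for `eps < 2/3`. -/
theorem wt_summable : Summable wt := by
  obtain ⟨C, _, hC⟩ := finsum_bound (1 / 3) (by norm_num) le_rfl
  exact summable_of_sum_le (fun p => wt_nonneg p) (fun u => hC 1 le_rfl u)

/-- PROOF. Same dyadic blocks from `k` with `2^(k+1) > x`, i.e. `2^k >= x/2`; geometric series with ratio
`2^(-2/3+eps) <= 2^(-1/3)` when `eps <= 1/3`. -/
theorem wt_tail (ε : ℝ) (hε : 0 < ε) (hε1 : ε ≤ 1 / 3) :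
    ∃ C : ℝ, 0 < C ∧ ∀ x : ℕ, 1 ≤ x →
      (∑' p : ℕ × ℕ, wt p) - (∑ p ∈ redLt x, wt p) ≤ C * (x : ℝ) ^ (-(2 : ℝ) / 3 + ε) := by
  obtain ⟨C, hC0, hC⟩ := finsum_bound ε hε hε1
  refine ⟨C, hC0, fun x hx => ?_⟩
  have := Real.tsum_le_of_sum_le (fun p => wt_nonneg p) (hC x hx)
  linarith

theorem sum_le_tsum_wt (x : ℕ) : (∑ p ∈ redLt x, wt p) ≤ ∑' p : ℕ × ℕ, wt p :=
  wt_summable.sum_le_tsum _ (fun p _ => wt_nonneg p)

theorem sigma_six : ArithmeticFunction.sigma 1 6 = 12 := by decide +kernel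

theorem sigma_28 : ArithmeticFunction.sigma 1 28 = 56 := by decide +kernel

/-- `(6,28)` is reduced. -/
theorem red_6_28 : Red 6 28 := by
  refine ⟨by norm_num, by norm_num, ?_, ?_⟩
  · rw [sigma_six, sigma_28]
  · intro q hq hd
    have h168 : q ∣ 168 := by simpa using hd
    have hle : q ∈ Nat.primeFactors 168 := by
      rw [Nat.mem_primeFactors]
      exact ⟨hq, h168, by norm_num⟩
    have hpf : Nat.primeFactors 168 = {2, 3, 7} := by decide +kernel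
    rw [hpf] at hle
    simp only [Finset.mem_insert, Finset.mem_singleton] at hle
    rcases hle with h | h | h
    · subst h
      decide +kernel
    · subst h
      decide +kernel
    · subst h
      decide +kernel

theorem wt_pos : 0 < ∑' p : ℕ × ℕ, wt p := by
  have h := wt_summable.sum_le_tsum {((6 : ℕ), (28 : ℕ))} (fun p _ => wt_nonneg p)
  refine lt_of_lt_of_le ?_ h
  rw [Finset.sum_singleton]
  unfold wt
  rw [if_pos ⟨red_6_28, by norm_num⟩]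
  have : 0 < Nat.totient ((6, 28) : ℕ × ℕ).1 * ((6, 28) : ℕ × ℕ).2 := by decide +kernel
  have h2 : 0 < Nat.totient (((6, 28) : ℕ × ℕ).1 * ((6, 28) : ℕ × ℕ).2) := by
    apply Nat.totient_pos.mpr
    norm_num
  positivity

end Pool.Agent.Helper20.FR
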