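import Pool.Agent.Helper20.FR.RedRaw
import Pool.Agent.Helper20.FR.Eps1
import Pool.Agent.Helper20.FR.Eps2

/-!
Project FR (MP_649f63_nt), module RED: the number of reduced pairs up to x is O(x^(1/3+eps)).
-/

namespace Pool.Agent.Helper20.FR

open ArithmeticFunction

theorem card_m_le (x : ℕ) (hx : 1 ≤ x) :
    ({m : ℕ | 0 < m ∧ m ^ 6 ≤ x ^ 2}.ncard : ℝ) ≤ (x : ℝ) ^ ((1 : ℝ) / 3) := by
  set B : ℝ := (x : ℝ) ^ ((1 : ℝ) / 3) with hB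
  have hx0 : (0 : ℝ) < x := by exact_mod_cast hx
  have hB0 : 0 ≤ B := by positivity
  have hB6 : B ^ 6 = (x : ℝ) ^ 2 := by
    rw [hB, ← Real.rpow_natCast, ← Real.rpow_mul hx0.le]
    norm_num
  have hsub : {m : ℕ | 0 < m ∧ m ^ 6 ≤ x ^ 2} ⊆ ↑(Finset.Icc 1 ⌊B⌋₊) := by
    rintro m ⟨h1, h2⟩
    rw [Finset.coe_Icc]
    refine ⟨h1, Nat.le_floor ?_⟩
    have h3 : (m : ℝ) ^ 6 ≤ B ^ 6 := by rw [hB6]; exact_mod_cast h2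
    exact le_of_pow_le_pow_left₀ (by norm_num) hB0 h3
  have h := Set.ncard_le_ncard hsub (Finset.finite_toSet _)
  rw [Set.ncard_coe_finset, Nat.card_Icc] at h
  calc ({m : ℕ | 0 < m ∧ m ^ 6 ≤ x ^ 2}.ncard : ℝ) ≤ ((⌊B⌋₊ + 1 - 1 : ℕ) : ℝ) := by exact_mod_cast h
    _ = (⌊B⌋₊ : ℝ) := by simp
    _ ≤ B := Nat.floor_le hB0

/-- from `red_count_raw`, `smooth_eps (eps/4)`, `code_eps (eps/2)`; the number of m is at most `x^(1/3)`. -/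
theorem red_count (ε : ℝ) (hε : 0 < ε) :
    ∃ C : ℝ, 0 < C ∧ ∀ x : ℕ, 1 ≤ x → ((redUpTo x).ncard : ℝ) ≤ C * (x : ℝ) ^ ((1 : ℝ) / 3 + ε) := by
  obtain ⟨C1, hC1, h1⟩ := smooth_eps (ε / 4) (by positivity)
  obtain ⟨C2, hC2, h2⟩ := code_eps (ε / 2) (by positivity)
  refine ⟨C1 ^ 2 * C2, by positivity, fun x hx => ?_⟩
  have hx0 : (0 : ℝ) < x := by exact_mod_cast hx
  have e1 := h1 x hx
  have e2 := h2 x hx
  have e3 := card_m_le x hx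
  calc ((redUpTo x).ncard : ℝ) ≤ _ := red_count_raw x hx
    _ ≤ (C1 * (x : ℝ) ^ (ε / 4)) ^ 2 * (x : ℝ) ^ ((1 : ℝ) / 3) * (C2 * (x : ℝ) ^ (ε / 2)) := by
        gcongr
    _ = C1 ^ 2 * C2 * (((x : ℝ) ^ (ε / 4)) ^ 2 * (x : ℝ) ^ ((1 : ℝ) / 3) * (x : ℝ) ^ (ε / 2)) := by
        ring
    _ = C1 ^ 2 * C2 * (x : ℝ) ^ ((1 : ℝ) / 3 + ε) := by
        rw [← Real.rpow_natCast ((x : ℝ) ^ (ε / 4)) 2, ← Real.rpow_mul hx0.le, ← Real.rpow_add hx0,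
          ← Real.rpow_add hx0]
        congr 2
        push_cast
        ring

/-- the primitive solutions `(a,b)` with `b <= x` -/
def primUpTo (x : ℕ) : Set (ℕ × ℕ) := {p : ℕ × ℕ | Prim p.1 p.2 ∧ p.2 ≤ x}

theorem prim_count (ε : ℝ) (hε : 0 < ε) :
    ∃ C : ℝ, 0 < C ∧ ∀ x : ℕ, 1 ≤ x → ((primUpTo x).ncard : ℝ) ≤ C * (x : ℝ) ^ ((1 : ℝ) / 3 + ε) := by
  obtain ⟨C, hC, h⟩ := red_count ε hε
  refine ⟨C, hC, fun x hx => le_trans ?_ (h x hx)⟩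
  have hsub : primUpTo x ⊆ redUpTo x := by
    rintro ⟨a, b⟩ ⟨h1, h2⟩
    refine ⟨h1.red, ?_, h2⟩
    have := h1.1.2.1
    simp only at this h2 ⊢
    omega
  exact_mod_cast Set.ncard_le_ncard hsub (redUpTo_finite x)

end Pool.Agent.Helper20.FR
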