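import Pool.Agent.Helper20.FR.Cnt

/-!
Project FR (MP_649f63_nt), module SMO: counting smooth numbers.
-/

namespace Pool.Agent.Helper20.FR

/-- the `y`-smooth numbers up to `x` -/
def smoothUpTo (x y : ℕ) : Set ℕ := {n : ℕ | 0 < n ∧ n ≤ x ∧ ∀ p : ℕ, p.Prime → p ∣ n → p ≤ y}

private lemma smo_card (y : ℕ) : Fintype.card {p // p ∈ Nat.primesLE y} = Nat.primeCounting y := by
  rw [Fintype.card_coe, Nat.primesLE_card_eq_primeCounting]

private lemma smo_prod {n y : ℕ} (hn : 0 < n) (hs : ∀ p : ℕ, p.Prime → p ∣ n → p ≤ y) :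
    ∏ p ∈ Nat.primesLE y, p ^ n.factorization p = n := by
  conv_rhs => rw [← Nat.prod_factorization_pow_eq_self hn.ne']
  rw [Finsupp.prod_of_support_subset _ (s := Nat.primesLE y)]
  · intro p hp
    rw [Nat.support_factorization] at hp
    rw [Nat.mem_primesLE]
    exact ⟨hs p (Nat.prime_of_mem_primeFactors hp) (Nat.dvd_of_mem_primeFactors hp),
      Nat.prime_of_mem_primeFactors hp⟩
  · intro p _
    exact pow_zero p

/-- PROOF. The map `n ↦ (n.factorization p)` over the primes `p <= y` (`ι` = the subtype of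
`Nat.primesLE y`, of cardinality `Nat.primeCounting y`) is injective on the smooth numbers
(`Nat.eq_of_factorization_eq`; primes above y do not divide n), and `2^(sum of exponents) <= n <= x`, so the
sum is at most `Nat.log 2 x`.  Apply `card_sum_le`. -/
theorem smooth_count (x y : ℕ) (z : ℝ) (hz0 : 0 < z) (hz1 : z < 1) :
    (smoothUpTo x y).Finite ∧
      ((smoothUpTo x y).ncard : ℝ) * (z ^ Nat.log 2 x * (1 - z) ^ Nat.primeCounting y) ≤ 1 := by
  obtain ⟨hfin, hcard⟩ := card_sum_le (ι := {p // p ∈ Nat.primesLE y}) (Nat.log 2 x) z hz0 hz1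
  rw [smo_card] at hcard
  have hSfin : (smoothUpTo x y).Finite := by
    refine Set.Finite.subset (Set.finite_Icc 1 x) ?_
    intro n hn
    exact ⟨hn.1, hn.2.1⟩
  refine ⟨hSfin, ?_⟩
  have hle : (smoothUpTo x y).ncard ≤
      {f : {p // p ∈ Nat.primesLE y} → ℕ | ∑ i, f i ≤ Nat.log 2 x}.ncard := by
    refine Set.ncard_le_ncard_of_injOn (fun n p => n.factorization p.1) ?_ ?_ hfin
    · intro n hn
      obtain ⟨hn0, hnx, hns⟩ := hn
      show ∑ i : {p // p ∈ Nat.primesLE y}, n.factorization i.1 ≤ Nat.log 2 x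
      rw [Nat.le_log_iff_pow_le (by norm_num) (by omega)]
      rw [Finset.sum_coe_sort (Nat.primesLE y) (fun p => n.factorization p)]
      refine le_trans ?_ hnx
      conv_rhs => rw [← smo_prod hn0 hns]
      rw [← Finset.prod_pow_eq_pow_sum]
      refine Finset.prod_le_prod' (fun p hp => ?_)
      rw [Nat.mem_primesLE] at hp
      exact Nat.pow_le_pow_left hp.2.two_le _
    · intro n hn m hm hnm
      refine Nat.eq_of_factorization_eq hn.1.ne' hm.1.ne' (fun p => ?_)
      by_cases hp : p ∈ Nat.primesLE y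
      · exact congrFun hnm ⟨p, hp⟩
      · rw [Nat.mem_primesLE] at hp
        by_cases hpp : p.Prime
        · have h1 : ¬ p ∣ n := fun hd => hp ⟨hn.2.2 p hpp hd, hpp⟩
          have h2 : ¬ p ∣ m := fun hd => hp ⟨hm.2.2 p hpp hd, hpp⟩
          rw [Nat.factorization_eq_zero_of_not_dvd h1, Nat.factorization_eq_zero_of_not_dvd h2]
        · rw [Nat.factorization_eq_zero_of_not_prime n hpp,
            Nat.factorization_eq_zero_of_not_prime m hpp]
  have hpos : 0 ≤ z ^ Nat.log 2 x * (1 - z) ^ Nat.primeCounting y :=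
    mul_nonneg (pow_nonneg hz0.le _) (pow_nonneg (by linarith) _)
  refine le_trans (mul_le_mul_of_nonneg_right ?_ hpos) hcard
  exact_mod_cast hle

end Pool.Agent.Helper20.FR
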