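import Pool.Agent.Helper20.FR.Clo
import Pool.Agent.Helper20.FR.EncInj
import Pool.Agent.Helper20.FR.EncExh
import Pool.Agent.Helper20.FR.EncSum
import Pool.Agent.Helper20.FR.Smo
import Pool.Agent.Helper20.FR.Yy

/-!
Project FR (MP_649f63_nt), module RDR: the encoding of reduced pairs.
-/

namespace Pool.Agent.Helper20.FR

open ArithmeticFunction

def redUpTo (x : ℕ) : Set (ℕ × ℕ) := {p : ℕ × ℕ | Red p.1 p.2 ∧ p.1 ≤ x ∧ p.2 ≤ x}

theorem redUpTo_finite (x : ℕ) : (redUpTo x).Finite := by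
  apply Set.Finite.subset (Finset.finite_toSet ((Finset.range (x + 1)) ×ˢ (Finset.range (x + 1))))
  rintro ⟨a, b⟩ ⟨-, h1, h2⟩
  simp only [Finset.coe_product, Finset.coe_range, Set.mem_prod, Set.mem_Iio]
  simp only at h1 h2
  omega

theorem res_mem_smooth {x y n : ℕ} (hn : 0 < n) (hnx : n ≤ x) :
    res (Nat.primesLE y) n ∈ smoothUpTo x y := by
  have hdvd : res (Nat.primesLE y) n ∣ n := by
    have h1 : res (Nat.primesLE y) n = ∏ p ∈ (Nat.primesLE y).filter (fun p => p ∈ n.primeFactors),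
        p ^ n.factorization p := by
      unfold res
      rw [Finset.prod_filter]
      apply Finset.prod_congr rfl
      intro p hp
      split_ifs with h
      · rfl
      · rw [← Nat.support_factorization, Finsupp.notMem_support_iff] at h
        rw [h, pow_zero]
    have h2 : n = ∏ p ∈ n.primeFactors, p ^ n.factorization p := by
      conv_lhs => rw [← Nat.prod_factorization_pow_eq_self hn.ne']
      rfl
    rw [h1]
    conv_rhs => rw [h2]
    apply Finset.prod_dvd_prod_of_subset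
    intro p hp
    exact (Finset.mem_filter.mp hp).2
  refine ⟨res_pos _ _, (Nat.le_of_dvd hn hdvd).trans hnx, ?_⟩
  intro p hp hpd
  unfold res at hpd
  rw [Prime.dvd_finset_prod_iff hp.prime] at hpd
  obtain ⟨q, hq, hpq⟩ := hpd
  have hqp := hp.dvd_of_dvd_pow hpq
  rw [Nat.mem_primesLE] at hq
  rw [(Nat.prime_dvd_prime_iff_eq hp hq.2).mp hqp]
  exact hq.1

theorem card_W_le {a b x y : ℕ} (ha : 0 < a) (hb : 0 < b) (hax : a ≤ x) (hbx : b ≤ x) (hy : 0 < y) :
    ((sigma 1 a * sigma 1 b * (a * b)).primeFactors.filter (fun p => y < p)).card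
      ≤ Nat.log (y + 1) (x ^ 6) := by
  set N := sigma 1 a * sigma 1 b * (a * b) with hN
  have hN0 : N ≠ 0 := by
    have h1 := sigma_ne_zero ha.ne'
    have h2 := sigma_ne_zero hb.ne'
    positivity
  have hNx : N ≤ x ^ 6 := by
    have h1 : sigma 1 a ≤ a ^ 2 := sigma_le_pow_succ 1 a
    have h2 : sigma 1 b ≤ b ^ 2 := sigma_le_pow_succ 1 b
    calc N ≤ a ^ 2 * b ^ 2 * (a * b) := by rw [hN]; gcongr
      _ ≤ x ^ 2 * x ^ 2 * (x * x) := by gcongr
      _ = x ^ 6 := by ring
  apply Nat.le_log_of_pow_le (by omega)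
  refine le_trans ?_ hNx
  calc (y + 1) ^ (N.primeFactors.filter (fun p => y < p)).card
      = ∏ _p ∈ N.primeFactors.filter (fun p => y < p), (y + 1) := by rw [Finset.prod_const]
    _ ≤ ∏ p ∈ N.primeFactors.filter (fun p => y < p), p := by
        apply Finset.prod_le_prod'
        intro p hp
        exact (Finset.mem_filter.mp hp).2
    _ ≤ ∏ p ∈ N.primeFactors, p := by
        apply Finset.prod_le_prod_of_subset_of_one_le' (Finset.filter_subset _ _)
        intro p hp _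
        exact (Nat.prime_of_mem_primeFactors hp).one_lt.le
    _ ≤ N := Nat.le_of_dvd (Nat.pos_of_ne_zero hN0) (Nat.prod_primeFactors_dvd N)

open Classical in
/-- the chosen set of guessed primes -/
noncomputable def chT (x : ℕ) (p : ℕ × ℕ) : Finset ℕ :=
  if h : ∃ T : Finset ℕ, T ⊆ supp p.1 p.2 ∧ (∀ q ∈ T, yy x < q) ∧
      (∏ q ∈ T, q) ^ 6 ≤ p.1 * p.2 ∧ Generates p.1 p.2 (yy x) T then h.choose else ∅

theorem chT_spec {x : ℕ} {p : ℕ × ℕ} (hp : p ∈ redUpTo x) :
    chT x p ⊆ supp p.1 p.2 ∧ (∀ q ∈ chT x p, yy x < q) ∧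
      (∏ q ∈ chT x p, q) ^ 6 ≤ p.1 * p.2 ∧ Generates p.1 p.2 (yy x) (chT x p) := by
  have hx := lt_two_pow_yy x
  have h : ∃ T : Finset ℕ, T ⊆ supp p.1 p.2 ∧ (∀ q ∈ T, yy x < q) ∧
      (∏ q ∈ T, q) ^ 6 ≤ p.1 * p.2 ∧ Generates p.1 p.2 (yy x) T :=
    exists_T hp.1 (by unfold yy; omega) (lt_of_le_of_lt hp.2.1 hx) (lt_of_le_of_lt hp.2.2 hx)
  unfold chT
  rw [dif_pos h]
  exact h.choose_spec

/-- The encoding.  Put `y = yy x`, `L = Nat.log (y+1) (x^6)`, `M = Nat.log (y+1) (x^2)`.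
To a reduced pair (a,b) with a, b <= x attach (A, B, m, f): `A = res (primesLE y) a`,
`B = res (primesLE y) b` (y-smooth numbers <= x), `m = prod_T q` where T is given by `exists_T` (so
`m^6 <= a b <= x^2`, and `T = m.primeFactors`), and `f : Fin L ⊕ Fin L → ℕ` the exponents of a and of
b at the steps `i < L`; its sum is at most M by `enc_sum` (`(y+1)^sum <= a b <= x^2`,
`Nat.le_log_of_pow_le`).  The map is injective: T is determined by m; `enc_inj` gives equality of the visited sets and of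
the parts on them, and by `enc_exhaust` (the set W has product of its elements dividing
`sigma a * sigma b * (a b) <= x^6` (`sigma_le_pow_succ`: sigma 1 n <= n^2), so `(y+1)^card W <= x^6` and
`card W <= L`) and `res_eq_self` the parts are a and b.
So `ncard <= (number of smooth)^2 * (number of m with 1 <= m, m^6 <= x^2) * (number of f)`, the last at most
`2^(2L+M)` by `card_sum_le` with z = 1/2. -/
theorem red_count_raw (x : ℕ) (hx : 1 ≤ x) :
    ((redUpTo x).ncard : ℝ) ≤ ((smoothUpTo x (yy x)).ncard : ℝ) ^ 2 *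
      ({m : ℕ | 0 < m ∧ m ^ 6 ≤ x ^ 2}.ncard : ℝ) *
      (2 : ℝ) ^ (2 * Nat.log (yy x + 1) (x ^ 6) + Nat.log (yy x + 1) (x ^ 2)) := by
  set y := yy x with hy
  have hy0 : 0 < y := by rw [hy]; unfold yy; omega
  set L := Nat.log (y + 1) (x ^ 6) with hL
  set M := Nat.log (y + 1) (x ^ 2) with hM
  set V0 := Nat.primesLE y with hV0
  set S := smoothUpTo x y with hS
  set Q : Set ℕ := {m : ℕ | 0 < m ∧ m ^ 6 ≤ x ^ 2} with hQ
  set F : Set (Fin L ⊕ Fin L → ℕ) := {f : Fin L ⊕ Fin L → ℕ | ∑ i, f i ≤ M} with hF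
  have hSfin : S.Finite := (smooth_count x y (1 / 2) (by norm_num) (by norm_num)).1
  have hFc := card_sum_le (ι := Fin L ⊕ Fin L) M (1 / 2) (by norm_num) (by norm_num)
  have hQfin : Q.Finite := by
    apply Set.Finite.subset (Set.finite_Iic (x ^ 2))
    intro m hm
    have h1 : m ≤ m ^ 6 := Nat.le_self_pow (by norm_num) m
    exact h1.trans hm.2
  let e : ℕ × ℕ → ℕ × ℕ × ℕ × (Fin L ⊕ Fin L → ℕ) := fun p =>
    (res V0 p.1, res V0 p.2, ∏ q ∈ chT x p, q,
      Sum.elim (fun i => p.1.factorization (step p.1 p.2 (chT x p) V0 i))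
        (fun i => p.2.factorization (step p.1 p.2 (chT x p) V0 i)))
  have hTprime : ∀ p ∈ redUpTo x, ∀ q ∈ chT x p, q.Prime := by
    intro p hp q hq
    exact Nat.prime_of_mem_primeFactors ((chT_spec hp).1 hq)
  have hab : ∀ p ∈ redUpTo x, p.1 * p.2 ≤ x ^ 2 := by
    intro p hp
    rw [sq]
    exact Nat.mul_le_mul hp.2.1 hp.2.2
  have hmaps : ∀ p ∈ redUpTo x, e p ∈ S ×ˢ S ×ˢ Q ×ˢ F := by
    intro p hp
    have hR : Red p.1 p.2 := hp.1
    have hT := chT_spec hp
    refine ⟨res_mem_smooth hR.1 hp.2.1, res_mem_smooth hR.2.1 hp.2.2, ⟨?_, ?_⟩, ?_⟩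
    · apply Finset.prod_pos
      intro q hq
      exact (hTprime p hp q hq).pos
    · exact hT.2.2.1.trans (hab p hp)
    · show ∑ i, Sum.elim _ _ i ≤ M
      rw [Fintype.sum_sum_type]
      simp only [Sum.elim_inl, Sum.elim_inr]
      rw [← Finset.sum_add_distrib]
      apply Nat.le_log_of_pow_le (by omega)
      have h1 := enc_sum (y := y) (L := L) hR hT.1
      rw [Finset.sum_range] at h1
      exact h1.trans (hab p hp)
  have hinj : Set.InjOn e (redUpTo x) := by
    intro p hp p' hp' hpp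
    simp only [e, Prod.mk.injEq] at hpp
    obtain ⟨hA, hB, hTT, hf⟩ := hpp
    have hTe : chT x p = chT x p' := by
      have h1 : (∏ q ∈ chT x p, q).primeFactors = chT x p :=
        Nat.primeFactors_prod (hTprime p hp)
      have h2 : (∏ q ∈ chT x p', q).primeFactors = chT x p' :=
        Nat.primeFactors_prod (hTprime p' hp')
      rw [← h1, hTT, h2]
    have hR : Red p.1 p.2 := hp.1
    have hR' : Red p'.1 p'.2 := hp'.1
    have hT := chT_spec hp
    have hT' := chT_spec hp'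
    have hca : ∀ i < L, p.1.factorization (step p.1 p.2 (chT x p) V0 i)
        = p'.1.factorization (step p'.1 p'.2 (chT x p) V0 i) := by
      intro i hi
      have := congrFun hf (Sum.inl ⟨i, hi⟩)
      simp only [Sum.elim_inl] at this
      rw [this, hTe]
    have hcb : ∀ i < L, p.2.factorization (step p.1 p.2 (chT x p) V0 i)
        = p'.2.factorization (step p'.1 p'.2 (chT x p) V0 i) := by
      intro i hi
      have := congrFun hf (Sum.inr ⟨i, hi⟩)
      simp only [Sum.elim_inr] at this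
      rw [this, hTe]
    obtain ⟨hv, h1, h2⟩ := enc_inj (hTprime p hp) L hA hB hca hcb
    have hex := enc_exhaust (y := y) (L := L) hR hT.1 hT.2.2.2
      (card_W_le hR.1 hR.2.1 hp.2.1 hp.2.2 hy0)
    have hex' := enc_exhaust (y := y) (L := L) hR' hT'.1 hT'.2.2.2
      (card_W_le hR'.1 hR'.2.1 hp'.2.1 hp'.2.2 hy0)
    rw [← hTe] at hex'
    have hsub : ∀ {a b : ℕ}, 0 < a → 0 < b → a.primeFactors ⊆ supp a b ∧ b.primeFactors ⊆ supp a b := by
      intro a b ha hb
      unfold supp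
      rw [Nat.primeFactors_mul ha.ne' hb.ne']
      exact ⟨Finset.subset_union_left, Finset.subset_union_right⟩
    have e1 : res (visited p.1 p.2 (chT x p) V0 L) p.1 = p.1 :=
      res_eq_self hR.1.ne' ((hsub hR.1 hR.2.1).1.trans hex)
    have e2 : res (visited p.1 p.2 (chT x p) V0 L) p.2 = p.2 :=
      res_eq_self hR.2.1.ne' ((hsub hR.1 hR.2.1).2.trans hex)
    have e3 : res (visited p'.1 p'.2 (chT x p) V0 L) p'.1 = p'.1 :=
      res_eq_self hR'.1.ne' ((hsub hR'.1 hR'.2.1).1.trans hex')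
    have e4 : res (visited p'.1 p'.2 (chT x p) V0 L) p'.2 = p'.2 :=
      res_eq_self hR'.2.1.ne' ((hsub hR'.1 hR'.2.1).2.trans hex')
    rw [e1, e3] at h1
    rw [e2, e4] at h2
    exact Prod.ext h1 h2
  have hcard := Set.ncard_le_ncard_of_injOn e hmaps hinj
    (hSfin.prod (hSfin.prod (hQfin.prod hFc.1)))
  rw [Set.ncard_prod, Set.ncard_prod, Set.ncard_prod] at hcard
  have hF2 : (F.ncard : ℝ) ≤ (2 : ℝ) ^ (2 * L + M) := by
    have h1 := hFc.2
    have h2 : Fintype.card (Fin L ⊕ Fin L) = 2 * L := by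
      rw [Fintype.card_sum, Fintype.card_fin]; ring
    rw [h2] at h1
    have h3 : ((1 : ℝ) / 2) ^ M * (1 - 1 / 2) ^ (2 * L) = ((2 : ℝ) ^ (2 * L + M))⁻¹ := by
      rw [show (1 : ℝ) - 1 / 2 = 1 / 2 by norm_num, ← pow_add, one_div, inv_pow, add_comm M]
    rw [h3, ← div_eq_mul_inv, div_le_one (by positivity)] at h1
    exact h1
  have hcast : ((redUpTo x).ncard : ℝ) ≤ (S.ncard : ℝ) * (S.ncard * (Q.ncard * F.ncard)) := by
    exact_mod_cast hcard
  calc ((redUpTo x).ncard : ℝ) ≤ (S.ncard : ℝ) * (S.ncard * (Q.ncard * F.ncard)) := hcast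
    _ = (S.ncard : ℝ) ^ 2 * Q.ncard * F.ncard := by ring
    _ ≤ (S.ncard : ℝ) ^ 2 * Q.ncard * (2 : ℝ) ^ (2 * L + M) := by gcongr

end Pool.Agent.Helper20.FR
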