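import Pool.Agent.Helper20.FR.Defs

/-!
Project FR (MP_649f63_nt), module SIG: the sum of divisors and valuations.
`sigma 1 n` is `ArithmeticFunction.sigma 1 n`.  Useful: `ArithmeticFunction.isMultiplicative_sigma`,
`ArithmeticFunction.IsMultiplicative.multiplicative_factorization`,
`ArithmeticFunction.sigma_one_apply_prime_pow`, `Nat.factorization_prod`.
-/

namespace Pool.Agent.Helper20.FR

open ArithmeticFunction

theorem sigma_ne_zero {n : ℕ} (hn : n ≠ 0) : sigma 1 n ≠ 0 :=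
  (sigma_pos 1 n hn).ne'

private theorem sig_prod {n : ℕ} (hn : n ≠ 0) :
    sigma 1 n = ∏ p ∈ n.primeFactors, sigma 1 (p ^ n.factorization p) := by
  rw [isMultiplicative_sigma.multiplicative_factorization _ hn]
  rfl

private theorem sig_pow_ne_zero {n p : ℕ} (hp : p ∈ n.primeFactors) :
    sigma 1 (p ^ n.factorization p) ≠ 0 :=
  sigma_ne_zero (pow_ne_zero _ (Nat.prime_of_mem_primeFactors hp).ne_zero)

/-- `sigma(n) = prod over p | n of sigma(p^(v_p(n)))`, take the exponent of `q`. -/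
theorem fact_sigma {n : ℕ} (hn : n ≠ 0) (q : ℕ) :
    (sigma 1 n).factorization q
      = ∑ p ∈ n.primeFactors, (sigma 1 (p ^ n.factorization p)).factorization q := by
  rw [sig_prod hn, Nat.factorization_prod (fun p hp => sig_pow_ne_zero hp), Finsupp.finsetSum_apply]

theorem prime_dvd_sigma_iff {n q : ℕ} (hn : n ≠ 0) (hq : q.Prime) :
    q ∣ sigma 1 n ↔ ∃ p ∈ n.primeFactors, q ∣ sigma 1 (p ^ n.factorization p) := by
  rw [sig_prod hn, Prime.dvd_finsetProd_iff hq.prime]

/-- `sigma(p^e) = 1 + p + ... + p^e` is 1 modulo p. -/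
theorem not_dvd_sigma_pow_self {p : ℕ} (hp : p.Prime) (e : ℕ) : ¬ p ∣ sigma 1 (p ^ e) := by
  rw [sigma_one_apply_prime_pow hp, Finset.sum_range_succ', pow_zero]
  intro h
  have h1 : p ∣ ∑ k ∈ Finset.range e, p ^ (k + 1) :=
    Finset.dvd_sum fun k _ => dvd_pow_self p (Nat.succ_ne_zero k)
  have h2 := (Nat.dvd_add_right h1).1 h
  exact hp.one_lt.ne' (Nat.dvd_one.1 h2)

theorem sigma_pow_one {p : ℕ} (hp : p.Prime) : sigma 1 (p ^ 1) = p + 1 := by
  rw [sigma_one_apply_prime_pow hp]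
  simp [Finset.sum_range_succ]
  ring

theorem sigma_pow_two {p : ℕ} (hp : p.Prime) : sigma 1 (p ^ 2) = p ^ 2 + p + 1 := by
  rw [sigma_one_apply_prime_pow hp]
  simp [Finset.sum_range_succ]
  ring

theorem sigma_pow_three {p : ℕ} (hp : p.Prime) : sigma 1 (p ^ 3) = p ^ 3 + p ^ 2 + p + 1 := by
  rw [sigma_one_apply_prime_pow hp]
  simp [Finset.sum_range_succ]
  ring

theorem Red.symm {a b : ℕ} (h : Red a b) : Red b a := by
  obtain ⟨ha, hb, he, hq⟩ := h
  refine ⟨hb, ha, he.symm, fun q hqp hd => ?_⟩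
  rw [mul_comm] at hd
  exact (hq q hqp hd).symm

theorem supp_comm (a b : ℕ) : supp a b = supp b a := by
  unfold supp
  rw [mul_comm]

theorem AncClosed.symm {a b : ℕ} {R : Finset ℕ} (h : AncClosed a b R) : AncClosed b a R := by
  intro r hr q hq hh
  rw [supp_comm] at hq
  exact h r hr q hq (Or.symm hh)

theorem mem_supp {a b q : ℕ} (h : Red a b) : q ∈ supp a b ↔ q.Prime ∧ (q ∣ a ∨ q ∣ b) := by
  obtain ⟨ha, hb, -, -⟩ := h
  unfold supp
  rw [Nat.mem_primeFactors]
  constructor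
  · rintro ⟨h1, h2, -⟩
    exact ⟨h1, (Nat.Prime.dvd_mul h1).1 h2⟩
  · rintro ⟨h1, h2⟩
    exact ⟨h1, (Nat.Prime.dvd_mul h1).2 h2, (Nat.mul_pos ha hb).ne'⟩

/-- compare the exponents of `q` in `sigma(a) b = sigma(b) a` -/
theorem red_fact {a b : ℕ} (h : Red a b) (q : ℕ) :
    (sigma 1 a).factorization q + b.factorization q
      = (sigma 1 b).factorization q + a.factorization q := by
  obtain ⟨ha, hb, he, -⟩ := h
  have h1 := congrArg (fun n => n.factorization q) he
  rw [Nat.factorization_mul (sigma_ne_zero ha.ne') hb.ne',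
    Nat.factorization_mul (sigma_ne_zero hb.ne') ha.ne'] at h1
  simpa using h1

end Pool.Agent.Helper20.FR
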