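import Pool.Agent.Helper20.FR.Sig

/-!
Project FR (MP_649f63_nt), module SIG2: ancestor closed sets; primitive solutions are reduced.
-/

namespace Pool.Agent.Helper20.FR

open ArithmeticFunction

/-- For `q` in an ancestor closed set `R`, only the primes of `R` contribute to the exponent of `q`
in `sigma(a)`: a prime `p` of `a` outside `R` does not hit `q` (otherwise `p` would be in `R`), so its
term in `fact_sigma` is zero; a prime `p` of `R` not dividing `a` has `a.factorization p = 0` and
`sigma 1 1 = 1`. -/
theorem anc_fact {a b : ℕ} (h : Red a b) {R : Finset ℕ} (hR : R ⊆ supp a b)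
    (hanc : AncClosed a b R) {q : ℕ} (hq : q ∈ R) :
    (sigma 1 a).factorization q
      = ∑ p ∈ R, (sigma 1 (p ^ a.factorization p)).factorization q := by
  classical
  have ha : a ≠ 0 := h.1.ne'
  have hb : b ≠ 0 := h.2.1.ne'
  rw [fact_sigma ha q]
  have h1 : ∑ p ∈ a.primeFactors, (sigma 1 (p ^ a.factorization p)).factorization q =
      ∑ p ∈ a.primeFactors ∩ R, (sigma 1 (p ^ a.factorization p)).factorization q := by
    symm
    refine Finset.sum_subset Finset.inter_subset_left ?_
    intro p hp hp'
    by_contra hne
    apply hp'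
    refine Finset.mem_inter.2 ⟨hp, hanc q hq p ?_ (Or.inl (Nat.dvd_of_factorization_pos hne))⟩
    unfold supp
    rw [Nat.primeFactors_mul ha hb]
    exact Finset.mem_union_left _ hp
  have h2 : ∑ p ∈ R, (sigma 1 (p ^ a.factorization p)).factorization q =
      ∑ p ∈ a.primeFactors ∩ R, (sigma 1 (p ^ a.factorization p)).factorization q := by
    symm
    refine Finset.sum_subset Finset.inter_subset_right ?_
    intro p hp hp'
    have hpa : a.factorization p = 0 := by
      rw [← Finsupp.notMem_support_iff, Nat.support_factorization]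
      intro hc
      exact hp' (Finset.mem_inter.2 ⟨hc, hp⟩)
    rw [hpa, pow_zero]
    simp
  rw [h1, h2]

/-- A primitive solution is reduced: if a prime `q | ab` had the same exponent `v` in `a` and in `b`
(then `v > 0`), then with `d = q^v` and multiplicativity of sigma (`a = d a'`, `b = d b'`, d coprime to
a' and to b', `sigma(a) = sigma(d) sigma(a')`) the pair `(a/d, b/d)` would be a solution. -/
theorem Prim.red {a b : ℕ} (h : Prim a b) : Red a b := by
  obtain ⟨⟨ha, hab, heq⟩, hprim⟩ := h
  have hb : 0 < b := by omega
  refine ⟨ha, hb, heq, ?_⟩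
  intro q hq hqab hv
  have hv0 : a.factorization q ≠ 0 := by
    intro h0
    rcases (Nat.Prime.dvd_mul hq).1 hqab with h1 | h1
    · have := (hq.dvd_iff_one_le_factorization ha.ne').1 h1
      omega
    · have := (hq.dvd_iff_one_le_factorization hb.ne').1 h1
      omega
  set d : ℕ := q ^ a.factorization q with hd
  have hd1 : 1 < d := Nat.one_lt_pow hv0 hq.one_lt
  have hda : d ∣ a := Nat.ordProj_dvd a q
  have hdb : d ∣ b := by
    have := Nat.ordProj_dvd b q
    rwa [← hv] at this
  have hca : Nat.Coprime d (a / d) := by
    have := Nat.coprime_ordCompl hq ha.ne'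
    exact Nat.Coprime.pow_left _ this
  have hcb : Nat.Coprime d (b / d) := by
    have := Nat.coprime_ordCompl hq hb.ne'
    rw [← hv] at this
    exact Nat.Coprime.pow_left _ this
  have hae : d * (a / d) = a := Nat.mul_div_cancel' hda
  have hbe : d * (b / d) = b := Nat.mul_div_cancel' hdb
  have hsa : sigma 1 a = sigma 1 d * sigma 1 (a / d) := by
    conv_lhs => rw [← hae]
    exact isMultiplicative_sigma.map_mul_of_coprime hca
  have hsb : sigma 1 b = sigma 1 d * sigma 1 (b / d) := by
    conv_lhs => rw [← hbe]
    exact isMultiplicative_sigma.map_mul_of_coprime hcb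
  refine hprim d hd1 hda hdb ⟨Nat.div_pos (Nat.le_of_dvd ha hda) (by omega), ?_, ?_⟩
  · by_contra hc
    push Not at hc
    have := Nat.mul_le_mul_left d hc
    rw [hae, hbe] at this
    omega
  · have hsd : 0 < sigma 1 d := Nat.pos_of_ne_zero (sigma_ne_zero (by omega))
    have h1 : (sigma 1 d * d) * (sigma 1 (a / d) * (b / d)) =
        (sigma 1 d * d) * (sigma 1 (b / d) * (a / d)) := by
      have h2 := heq
      rw [hsa, hsb] at h2
      calc (sigma 1 d * d) * (sigma 1 (a / d) * (b / d))
          = sigma 1 d * sigma 1 (a / d) * (d * (b / d)) := by ring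
        _ = sigma 1 d * sigma 1 (a / d) * b := by rw [hbe]
        _ = sigma 1 d * sigma 1 (b / d) * a := h2
        _ = sigma 1 d * sigma 1 (b / d) * (d * (a / d)) := by rw [hae]
        _ = (sigma 1 d * d) * (sigma 1 (b / d) * (a / d)) := by ring
    exact Nat.eq_of_mul_eq_mul_left (Nat.mul_pos hsd (by omega)) h1

end Pool.Agent.Helper20.FR
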